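import Pool.Agent.Work.MP_5f857a_co.X.Final

/-!
MODULE Own: the own statement (subdivisions of the cross-polytope graph and of the complete graph).
-/

set_option autoImplicit false

namespace Pool.Agent.Work.MP_5f857a_co.X

open Pool.Agent.Work.MP_5f857a_co.L Pool.Agent.Work.MP_5f857a_co.M

variable {α β ι : Type*}

/-- the graph `G` contains a subdivision of `H` with all its vertices in `V` -/
def HasSub (G : SimpleGraph α) (V : Set α) (H : SimpleGraph ι) : Prop :=
  ∃ b : ι → α, Function.Injective b ∧ (∀ i, b i ∈ V) ∧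
    ∃ p : (i j : ι) → H.Adj i j → G.Walk (b i) (b j),
      (∀ i j h, (p i j h).IsPath ∧ ∀ x ∈ (p i j h).support, x ∈ V) ∧
      (∀ i j h k, b k ∈ (p i j h).support → k = i ∨ k = j) ∧
      ∀ i j h k l h', s(i, j) ≠ s(k, l) → ∀ x, x ∈ (p i j h).support → x ∈ (p k l h').support →
        ∃ m, x = b m

theorem hasSub_of_sets {G : SimpleGraph α} {W : Set α} {H : SimpleGraph ι} {b : ι → α}
    (hb : Function.Injective b) (hbW : ∀ i, b i ∈ W) {I : Sym2 α → Set α}
    (h3 : ∀ p q, H.Adj p q → Con G ({b p, b q} ∪ I s(b p, b q)) (b p) (b q))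
    (h4 : ∀ s, I s ⊆ W) (h5 : ∀ s p, b p ∉ I s) (h6 : ∀ s t, s ≠ t → Disjoint (I s) (I t)) :
    HasSub G W H := by
  classical
  have hwalk : ∀ i j : ι, H.Adj i j → ∃ q : G.Walk (b i) (b j), q.IsPath ∧
      ∀ x ∈ q.support, x ∈ ({b i, b j} ∪ I s(b i, b j) : Set α) := by
    intro i j hij
    obtain ⟨q, hq⟩ := h3 i j hij
    exact ⟨q.bypass, q.bypass_isPath, fun x hx => hq x (q.support_bypass_subset hx)⟩
  choose p hp hps using hwalk
  have hcase : ∀ i j (h : H.Adj i j) x, x ∈ (p i j h).support → x = b i ∨ x = b j ∨ x ∈ I s(b i, b j) := by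
    intro i j h x hx
    rcases hps i j h x hx with (h1 | h1) | h1
    · exact Or.inl h1
    · rw [Set.mem_singleton_iff] at h1
      exact Or.inr (Or.inl h1)
    · exact Or.inr (Or.inr h1)
  refine ⟨b, hb, hbW, p, fun i j h => ⟨hp i j h, fun x hx => ?_⟩, fun i j h k hk => ?_, ?_⟩
  · rcases hcase i j h x hx with h1 | h1 | h1
    · rw [h1]; exact hbW i
    · rw [h1]; exact hbW j
    · exact h4 _ h1
  · rcases hcase i j h _ hk with h1 | h1 | h1
    · exact Or.inl (hb h1)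
    · exact Or.inr (hb h1)
    · exact absurd h1 (h5 _ _)
  · intro i j h k l h' hne x hx hx'
    have hs : s(b i, b j) ≠ s(b k, b l) := by
      intro he
      apply hne
      rw [Sym2.eq_iff] at he ⊢
      rcases he with ⟨e1, e2⟩ | ⟨e1, e2⟩
      · exact Or.inl ⟨hb e1, hb e2⟩
      · exact Or.inr ⟨hb e1, hb e2⟩
    rcases hcase i j h x hx with h1 | h1 | h1
    · exact ⟨i, h1⟩
    · exact ⟨j, h1⟩
    · rcases hcase k l h' x hx' with h2 | h2 | h2
      · exact ⟨k, h2⟩
      · exact ⟨l, h2⟩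
      · exact absurd h2 (Set.disjoint_left.1 (h6 _ _ hs) h1)

theorem HasSub.map {G : SimpleGraph α} {G' : SimpleGraph β} {W : Set α} {W' : Set β}
    {H : SimpleGraph ι} (φ : G →g G') (hφ : Function.Injective φ) (hW : ∀ x ∈ W, φ x ∈ W')
    (h : HasSub G W H) : HasSub G' W' H := by
  obtain ⟨b, hb, hbW, p, h1, h2, h3⟩ := h
  refine ⟨fun i => φ (b i), fun i j h => hb (hφ h), fun i => hW _ (hbW i),
    fun i j h => (p i j h).map φ, fun i j h => ⟨?_, ?_⟩, ?_, ?_⟩
  · exact SimpleGraph.Walk.IsPath.map hφ (h1 i j h).1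
  · intro x hx
    rw [SimpleGraph.Walk.support_map, List.mem_map] at hx
    obtain ⟨y, hy, rfl⟩ := hx
    exact hW _ ((h1 i j h).2 y hy)
  · intro i j h k hk
    rw [SimpleGraph.Walk.support_map, List.mem_map] at hk
    obtain ⟨y, hy, he⟩ := hk
    rw [hφ he] at hy
    exact h2 i j h k hy
  · intro i j h k l h' hne x hx hx'
    rw [SimpleGraph.Walk.support_map, List.mem_map] at hx hx'
    obtain ⟨y, hy, rfl⟩ := hx
    obtain ⟨y', hy', he⟩ := hx'
    rw [hφ he] at hy'
    obtain ⟨m, hm⟩ := h3 i j h k l h' hne y hy hy'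
    exact ⟨m, by rw [hm]⟩

theorem TX.restrict {G : SimpleGraph α} {k d : ℕ} {W : Set α} (h : TX G k W) (hd : d ≤ k) :
    TX G d W := by
  obtain ⟨b, h1, h2, I, h3, h4, h5, h6⟩ := h
  refine ⟨fun p => b (Fin.castLE hd p.1, p.2), ?_, fun p => h2 _, I, fun p q hpq => h3 _ _ ?_, h4,
    fun s p => h5 s _, h6⟩
  · rintro ⟨i, s⟩ ⟨j, t⟩ hij
    have h := h1 hij
    rw [Prod.mk.injEq] at h
    have h' : i = j := Fin.castLE_injective hd h.1
    exact Prod.ext h' h.2
  · exact fun h => hpq (Fin.castLE_injective hd h)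

/-- the graph of the `d`-dimensional cross-polytope -/
def crossG (d : ℕ) : SimpleGraph (Fin d × Bool) where
  Adj p q := p.1 ≠ q.1
  symm := ⟨fun _ _ h => Ne.symm h⟩
  loopless := ⟨fun _ h => h rfl⟩

theorem own (d : ℕ) (V : Finset (EuclideanSpace ℝ (Fin d)))
    (hV : ∀ v ∈ V, -v ∈ V)
    (hconv : ∀ v ∈ V, v ∉ convexHull ℝ ((V : Set (EuclideanSpace ℝ (Fin d))) \ {v}))
    (hspan : affineSpan ℝ (V : Set (EuclideanSpace ℝ (Fin d))) = ⊤)
    (hsimp : ∀ (f : EuclideanSpace ℝ (Fin d) →ₗ[ℝ] ℝ) (c : ℝ),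
          (∀ x ∈ V, f x ≤ c) → (∃ x ∈ V, f x < c) →
          AffineIndependent ℝ
            (fun x : {x : EuclideanSpace ℝ (Fin d) // x ∈ V ∧ f x = c} =>
              (x : EuclideanSpace ℝ (Fin d)))) :
    HasSub (polyGraph V) (V : Set (EuclideanSpace ℝ (Fin d))) (crossG d) ∧
      HasSub (polyGraph V) (V : Set (EuclideanSpace ℝ (Fin d)))
        (⊤ : SimpleGraph (Fin (3 * d / 2))) := by
  classical
  obtain ⟨k, hk, hTX⟩ : ∃ k, d ≤ k ∧ TX (Gr (FcA (affA V)) ∅) k Set.univ := by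
    cases d with
    | zero => exact ⟨0, le_rfl, tx_zero _ _⟩
    | succ d => exact exists_TX V hV hconv hspan hsimp
  let φ : Gr (FcA (affA V)) ∅ →g polyGraph V :=
    { toFun := fun x => x.1
      map_rel' := fun {u v} h => affA_adj V u v h }
  have hφ : Function.Injective φ := fun x y h => Subtype.ext h
  have hW : ∀ x ∈ (Set.univ : Set {x // x ∈ V}), φ x ∈ (V : Set (EuclideanSpace ℝ (Fin d))) :=
    fun x _ => x.2
  constructor
  · obtain ⟨b, h1, h2, I, h3, h4, h5, h6⟩ := hTX.restrict hk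
    exact (hasSub_of_sets (H := crossG d) h1 h2 (fun p q hpq => h3 p q hpq) h4 h5 h6).map φ hφ hW
  · obtain ⟨B, hB, I, h1, h2, h3, h4⟩ := toTK (m := 3 * d / 2) hTX
      (Nat.div_le_div_right (Nat.mul_le_mul_left 3 hk))
    let e : Fin (3 * d / 2) ≃ B := (B.equivFinOfCardEq hB).symm
    have hb : Function.Injective (fun i => (e i).1) := fun i j hij =>
      e.injective (Subtype.ext hij)
    refine HasSub.map φ hφ hW (hasSub_of_sets (H := (⊤ : SimpleGraph (Fin (3 * d / 2)))) hb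
      (fun _ => Set.mem_univ _) (I := I) ?_ (fun s => Set.subset_univ _)
      (fun s p => h3 s _ (e p).2) h4)
    intro p q hpq
    exact h1 _ (e p).2 _ (e q).2 (fun h => hpq (hb h))

end Pool.Agent.Work.MP_5f857a_co.X
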