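import Pool.Agent.Work.MP_5f857a_co.X.Inv
import Pool.Agent.Work.MP_5f857a_co.M.Fan

/-!
MODULE Geo (M-L): the half of the boundary of a centrally symmetric simplicial polytope.

Statement `geo d`: for `Cfg A (d + 1)`, `Anti A ν`, whose edges are edges of `G`, there is a chain `u` (the
positive facets for the projection `ℓ` of `M.hyper`) with `u + nuC ν u` = sum of all facets, and `u` is not
`bd e + (f + nuC ν f)`.

PROOF by induction on `d` (for all `A`). `ℓ` from `hyper hC hν`, `A' = A ⊓ ker ℓ`,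
`u T = if T.card = d + 1 ∧ ∃ f, Supp A T f ∧ 0 < ℓ f then 1 else 0` (classical).
(1) `u` is a chain of cliques: two different elements `x`, `y` of a face `T` form a face `{x, y}` (`FcA_down`).
(2) `(u + nuC ν u) T = if T.card = d + 1 ∧ FcA A T then 1 else 0`: `T.image ν` is a positive facet iff `T` is a facet with a
function `f` with `ℓ f < 0` (see `fan_supp_nu` and the part (B), (C) of the proof of `M.fan`: `fun x => f (ν x)` is a
function of `T.image ν`, `ℓ (f ∘ ν) = - ℓ f`); a facet has `ℓ f ≠ 0`, and not both signs (`supp_unique`).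
(3) `bd u R = if R.card = d ∧ FcA A' R then 1 else 0`: for `R.card = d` this is `fan_ridge` of `M/Fan.lean` (it is
private there: copy its proof); for `R.card ≠ d` no `insert x R` (`x ∉ R`) has `d + 1` elements. The sum of the
values 0/1 over `x ∉ R` is the number of the `x` in `ZMod 2`.
(3b) `bd (u + nuC ν u) = bd u + nuC ν (bd u) = 0`: by (3) `bd u` is invariant under `nuC ν` (`R.image ν` is a face
of `A'` with `d` elements iff `R` is: `fun x => f (ν x)`), characteristic 2.
(4) Suppose `u = bd e + (f + nuC ν f)`. Then `bd u = bd f + nuC ν (bd f)` (`bd_bd`, `bd_nuC`).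
* `d = 0`: evaluate at `∅`: the right side is `2 * bd f ∅ = 0` (`∅.image ν = ∅`), the left side is 1, because `∅` is
  a face of `A'`: `Cfg A' 0` so `finrank A' = 1`; the function `-1` is in `A'` (`Anti A' ν`), `α` is nonempty
  (see the case `zero` of `M.fan`).
* `d + 1`: by induction for `A'` there is `u'` with `u' + nuC ν u' = bd u` (by (3) and the first property for `A'`).
  So `u' + bd f` is invariant under `nuC ν`, it is a chain with `d + 1 ≥ 1` elements, by `inv_rep`
  `u' + bd f = f' + nuC ν f'`, so `u' = bd f + (f' + nuC ν f')`, against the second property of `u'`.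
The hypotheses on `G` for `A'`: faces of `A'` are faces of `A`.
-/

set_option autoImplicit false

namespace Pool.Agent.Work.MP_5f857a_co.X

open Pool.Agent.Work.MP_5f857a_co.L Pool.Agent.Work.MP_5f857a_co.M

variable {α : Type*}

open Classical in
/-- the ridge `R` is a face of the projection iff it lies in an odd number of positive facets -/
private theorem geo_ridge [Fintype α] [DecidableEq α] {A : Submodule ℝ (α → ℝ)} {d : ℕ} (hC : Cfg A (d + 1))
    (ℓ : (α → ℝ) →ₗ[ℝ] ℝ)
    (hℓ : ∀ (T : Finset α) (f : α → ℝ), Supp A T f → T.card = d + 1 → ℓ f ≠ 0)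
    {R : Finset α} (hR : R.card = d) :
    Odd (Finset.univ.filter fun x : α => x ∉ R ∧ ∃ f, Supp A (insert x R) f ∧ 0 < ℓ f).card ↔
      FcA (A ⊓ LinearMap.ker ℓ) R := by
  by_cases hF : FcA A R
  · obtain ⟨x, y, hxy, hx, hy, hFx, hFy, hall⟩ := ridge_two hC hR hF
    obtain ⟨f, hf⟩ := fcA_iff.1 hFx
    obtain ⟨g, hg⟩ := fcA_iff.1 hFy
    have hcx : (insert x R).card = d + 1 := by rw [Finset.card_insert_of_notMem hx, hR]
    have hcy : (insert y R).card = d + 1 := by rw [Finset.card_insert_of_notMem hy, hR]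
    have hlf := hℓ _ _ hf hcx
    have hlg := hℓ _ _ hg hcy
    rw [ridge_sign hC ℓ hR hxy hx hy hf hg hlf hlg]
    have hpx : (∃ f, Supp A (insert x R) f ∧ 0 < ℓ f) ↔ 0 < ℓ f := by
      constructor
      · rintro ⟨f', hf', hpos⟩
        obtain ⟨c, hc, rfl⟩ := supp_unique hC hcx hf hf'
        rw [map_smul, smul_eq_mul] at hpos
        exact (pos_iff_pos_of_mul_pos hpos).1 hc
      · intro h
        exact ⟨f, hf, h⟩
    have hpy : (∃ f, Supp A (insert y R) f ∧ 0 < ℓ f) ↔ 0 < ℓ g := by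
      constructor
      · rintro ⟨f', hf', hpos⟩
        obtain ⟨c, hc, rfl⟩ := supp_unique hC hcy hg hf'
        rw [map_smul, smul_eq_mul] at hpos
        exact (pos_iff_pos_of_mul_pos hpos).1 hc
      · intro h
        exact ⟨g, hg, h⟩
    have hset : (Finset.univ.filter fun z : α => z ∉ R ∧ ∃ f, Supp A (insert z R) f ∧ 0 < ℓ f) =
        ({x, y} : Finset α).filter fun z => ∃ f, Supp A (insert z R) f ∧ 0 < ℓ f := by
      ext z
      rw [Finset.mem_filter, Finset.mem_filter, Finset.mem_insert, Finset.mem_singleton]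
      constructor
      · rintro ⟨-, hz, f', hf', hpos⟩
        exact ⟨hall z hz (fcA_iff.2 ⟨f', hf'⟩), f', hf', hpos⟩
      · rintro ⟨hz, h⟩
        refine ⟨Finset.mem_univ _, ?_, h⟩
        rcases hz with rfl | rfl
        · exact hx
        · exact hy
    rw [hset, Finset.filter_insert, Finset.filter_singleton]
    simp only [hpx, hpy]
    rcases lt_or_gt_of_ne hlf with h1 | h1 <;> rcases lt_or_gt_of_ne hlg with h2 | h2
    · rw [if_neg (not_lt.2 h1.le), if_neg (not_lt.2 h2.le)]
      have := mul_pos_of_neg_of_neg h1 h2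
      simp [not_lt.2 this.le]
    · rw [if_neg (not_lt.2 h1.le), if_pos h2]
      have := mul_neg_of_neg_of_pos h1 h2
      simp [this]
    · rw [if_pos h1, if_neg (not_lt.2 h2.le)]
      have := mul_neg_of_pos_of_neg h1 h2
      simp [this]
    · rw [if_pos h1, if_pos h2, Finset.card_pair hxy]
      have := mul_pos h1 h2
      constructor
      · intro h
        exact absurd h (by decide)
      · intro h
        exact absurd h (not_lt.2 this.le)
  · have h1 : ¬ FcA (A ⊓ LinearMap.ker ℓ) R := by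
      rintro ⟨f, hf, h1, h2, h3⟩
      exact hF ⟨f, hf.1, h1, h2, h3⟩
    rw [iff_false_right h1]
    have h2 : (Finset.univ.filter fun z : α => z ∉ R ∧ ∃ f, Supp A (insert z R) f ∧ 0 < ℓ f) =
        ∅ := by
      rw [Finset.filter_eq_empty_iff]
      rintro z - ⟨_, f, hf, _⟩
      exact hF (FcA_down hC R (insert z R) (Finset.subset_insert _ _) (fcA_iff.2 ⟨f, hf⟩))
    rw [h2]
    simp

private theorem geo_cast (n : ℕ) (p : Prop) [Decidable p] (hp : Odd n ↔ p) :
    (n : ZMod 2) = if p then 1 else 0 := by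
  split_ifs with h
  · exact (ZMod.natCast_eq_one_iff_odd).2 (hp.2 h)
  · exact (ZMod.natCast_eq_zero_iff_even).2 (Nat.not_odd_iff_even.1 fun h' => h (hp.1 h'))

private theorem geo_supp_nu [DecidableEq α] {A : Submodule ℝ (α → ℝ)} {ν : α → α} (hν : Anti A ν)
    {T : Finset α} {f : α → ℝ} (hf : Supp A T f) : Supp A (T.image ν) (fun x => f (ν x)) := by
  obtain ⟨h1, h2, h3, x, hx⟩ := hf
  refine ⟨hν.comp f h1, fun y => h2 _, fun y => ?_, ν x, ?_⟩
  · rw [h3, Finset.mem_image]
    constructor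
    · intro h
      exact ⟨ν y, h, hν.inv y⟩
    · rintro ⟨z, hz, rfl⟩
      rw [hν.inv]
      exact hz
  · show f (ν (ν x)) < 0
    rw [hν.inv]
    exact hx

private theorem geo_ii [DecidableEq α] {ν : α → α} (hν : ∀ x, ν (ν x) = x) (T : Finset α) :
    (T.image ν).image ν = T := by
  rw [Finset.image_image]
  have : ν ∘ ν = id := funext hν
  rw [this, Finset.image_id]

private theorem geo_fc_nu [DecidableEq α] {A : Submodule ℝ (α → ℝ)} {ν : α → α} (hν : Anti A ν)
    (T : Finset α) : FcA A (T.image ν) ↔ FcA A T := by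
  constructor
  · intro h
    obtain ⟨f, hf⟩ := fcA_iff.1 h
    have := geo_supp_nu hν hf
    rw [geo_ii hν.inv] at this
    exact fcA_iff.2 ⟨_, this⟩
  · intro h
    obtain ⟨f, hf⟩ := fcA_iff.1 h
    exact fcA_iff.2 ⟨_, geo_supp_nu hν hf⟩

open Classical in
private theorem geo_core [Fintype α] [DecidableEq α] {G : SimpleGraph α} {ν : α → α} (d : ℕ)
    (A : Submodule ℝ (α → ℝ)) (hC : Cfg A (d + 1)) (hν : Anti A ν)
    (hedge : ∀ x y, x ≠ y → FcA A {x, y} → G.Adj x y) :
    ∃ (ℓ : (α → ℝ) →ₗ[ℝ] ℝ) (u : Finset α → ZMod 2), Cfg (A ⊓ LinearMap.ker ℓ) d ∧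
      Anti (A ⊓ LinearMap.ker ℓ) ν ∧ IsCh G Finset.univ (d + 1) u ∧
      (∀ T, (u + nuC ν u) T = if T.card = d + 1 ∧ FcA A T then 1 else 0) ∧
      (∀ R, bd u R = if R.card = d ∧ FcA (A ⊓ LinearMap.ker ℓ) R then 1 else 0) := by
  obtain ⟨ℓ, hC', hν', hneg, hℓ⟩ := hyper hC hν
  have hinj : Function.Injective ν := fun a b h => by rw [← hν.inv a, h, hν.inv]
  refine ⟨ℓ, fun T => if T.card = d + 1 ∧ ∃ f, Supp A T f ∧ 0 < ℓ f then 1 else 0, hC', hν',
    ?_, ?_, ?_⟩
  · intro T hT
    by_cases h : T.card = d + 1 ∧ ∃ f, Supp A T f ∧ 0 < ℓ f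
    · obtain ⟨h1, f, hf, -⟩ := h
      refine ⟨Finset.subset_univ _, h1, fun x hx y hy hxy => ?_⟩
      refine hedge x y hxy (FcA_down hC {x, y} T ?_ (fcA_iff.2 ⟨f, hf⟩))
      intro z hz
      rcases Finset.mem_insert.1 hz with h | h
      · rw [h]; exact hx
      · rw [Finset.mem_singleton.1 h]; exact hy
    · exact absurd (if_neg h) hT
  · intro T
    show (if T.card = d + 1 ∧ ∃ f, Supp A T f ∧ 0 < ℓ f then (1 : ZMod 2) else 0) +
      (if (T.image ν).card = d + 1 ∧ ∃ f, Supp A (T.image ν) f ∧ 0 < ℓ f then 1 else 0) = _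
    have himg : ((T.image ν).card = d + 1 ∧ ∃ f, Supp A (T.image ν) f ∧ 0 < ℓ f) ↔
        (T.card = d + 1 ∧ ∃ f, Supp A T f ∧ ℓ f < 0) := by
      rw [Finset.card_image_of_injective _ hinj]
      constructor
      · rintro ⟨h1, f, hf, hpos⟩
        have hs := geo_supp_nu hν hf
        rw [geo_ii hν.inv] at hs
        refine ⟨h1, _, hs, ?_⟩
        rw [hneg f hf.1]
        linarith
      · rintro ⟨h1, f, hf, hpos⟩
        refine ⟨h1, _, geo_supp_nu hν hf, ?_⟩
        rw [hneg f hf.1]
        linarith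
    rw [if_congr himg rfl rfl]
    by_cases hT : T.card = d + 1 ∧ FcA A T
    · rw [if_pos hT]
      obtain ⟨hTc, hTF⟩ := hT
      obtain ⟨f, hf⟩ := fcA_iff.1 hTF
      rcases lt_or_gt_of_ne (hℓ T f hf hTc) with h | h
      · rw [if_neg, if_pos ⟨hTc, f, hf, h⟩, zero_add]
        rintro ⟨-, g, hg, hg'⟩
        obtain ⟨c, hc, rfl⟩ := supp_unique hC hTc hf hg
        rw [map_smul, smul_eq_mul] at hg'
        have := mul_neg_of_pos_of_neg hc h
        linarith
      · rw [if_pos ⟨hTc, f, hf, h⟩, if_neg, add_zero]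
        rintro ⟨-, g, hg, hg'⟩
        obtain ⟨c, hc, rfl⟩ := supp_unique hC hTc hf hg
        rw [map_smul, smul_eq_mul] at hg'
        have := mul_pos hc h
        linarith
    · rw [if_neg hT, if_neg, if_neg, add_zero]
      · rintro ⟨h1, f, hf, -⟩
        exact hT ⟨h1, fcA_iff.2 ⟨f, hf⟩⟩
      · rintro ⟨h1, f, hf, -⟩
        exact hT ⟨h1, fcA_iff.2 ⟨f, hf⟩⟩
  · intro R
    show (∑ x ∈ Rᶜ, if (insert x R).card = d + 1 ∧ ∃ f, Supp A (insert x R) f ∧ 0 < ℓ f then
      (1 : ZMod 2) else 0) = _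
    by_cases hR : R.card = d
    · rw [Finset.sum_boole]
      have hset : (Rᶜ.filter fun x => (insert x R).card = d + 1 ∧
          ∃ f, Supp A (insert x R) f ∧ 0 < ℓ f) =
          Finset.univ.filter fun x : α => x ∉ R ∧ ∃ f, Supp A (insert x R) f ∧ 0 < ℓ f := by
        ext x
        rw [Finset.mem_filter, Finset.mem_filter, Finset.mem_compl]
        constructor
        · rintro ⟨h1, -, h2⟩
          exact ⟨Finset.mem_univ _, h1, h2⟩
        · rintro ⟨-, h1, h2⟩
          refine ⟨h1, ?_, h2⟩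
          rw [Finset.card_insert_of_notMem h1, hR]
      rw [hset, geo_cast _ _ (geo_ridge hC ℓ hℓ hR)]
      exact if_congr (by simp [hR]) rfl rfl
    · rw [if_neg fun h => hR h.1]
      apply Finset.sum_eq_zero
      intro x hx
      rw [Finset.mem_compl] at hx
      rw [if_neg]
      rintro ⟨h, -⟩
      rw [Finset.card_insert_of_notMem hx] at h
      omega

open Classical in
theorem geo [Fintype α] [DecidableEq α] {G : SimpleGraph α} {ν : α → α}
    (hne : ∀ x, ν x ≠ x) (hfree : ∀ x, ¬ G.Adj x (ν x))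
    (hG : ∀ x y, G.Adj x y → G.Adj (ν x) (ν y)) (d : ℕ) :
    ∀ A : Submodule ℝ (α → ℝ), Cfg A (d + 1) → Anti A ν →
      (∀ x y, x ≠ y → FcA A {x, y} → G.Adj x y) →
      ∃ u : Finset α → ZMod 2, IsCh G Finset.univ (d + 1) u ∧
        (∀ T, (u + nuC ν u) T = if T.card = d + 1 ∧ FcA A T then 1 else 0) ∧
        bd (u + nuC ν u) = 0 ∧
        ¬ ∃ e f, IsCh G Finset.univ (d + 2) e ∧ IsCh G Finset.univ (d + 1) f ∧
          u = bd e + (f + nuC ν f) := by
  have hbd : ∀ (d : ℕ) (A' : Submodule ℝ (α → ℝ)) (u : Finset α → ZMod 2), Anti A' ν →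
      (∀ R, bd u R = if R.card = d ∧ FcA A' R then 1 else 0) → bd (u + nuC ν u) = 0 := by
    intro d A' u hν hu
    have hinj : Function.Injective ν := fun a b h => by rw [← hν.inv a, h, hν.inv]
    have h1 : nuC ν (bd u) = bd u := by
      funext R
      show bd u (R.image ν) = bd u R
      rw [hu, hu, Finset.card_image_of_injective _ hinj]
      exact if_congr (by rw [geo_fc_nu hν]) rfl rfl
    rw [bd_add, bd_nuC hν.inv, h1]
    exact add_self_chain _
  have hexp : ∀ (hinv : ∀ x, ν (ν x) = x) (u e f : Finset α → ZMod 2),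
      u = bd e + (f + nuC ν f) → bd u = bd f + nuC ν (bd f) := by
    intro hinv u e f h
    rw [h, bd_add, bd_bd, bd_add, bd_nuC hinv, zero_add]
  induction d with
  | zero =>
    intro A hC hν hedge
    obtain ⟨ℓ, u, hC', hν', hch, h2, h3⟩ := geo_core 0 A hC hν hedge
    refine ⟨u, hch, h2, hbd 0 _ u hν' h3, ?_⟩
    rintro ⟨e, f, -, -, hu⟩
    have hb := congrFun (hexp hν.inv u e f hu) ∅
    have hne' : Nonempty α := by
      by_contra h
      rw [not_nonempty_iff] at h
      have h1 : Module.finrank ℝ (A ⊓ LinearMap.ker ℓ : Submodule ℝ (α → ℝ)) = 0 := by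
        have h2 : Module.finrank ℝ (A ⊓ LinearMap.ker ℓ : Submodule ℝ (α → ℝ)) ≤
          Module.finrank ℝ (α → ℝ) := Submodule.finrank_le _
        rw [Module.finrank_fintype_fun_eq_card, Fintype.card_eq_zero] at h2
        omega
      have := hC'.dim
      omega
    obtain ⟨x₀⟩ := hne'
    have hF : FcA (A ⊓ LinearMap.ker ℓ) (∅ : Finset α) :=
      ⟨-(fun _ => (1 : ℝ)), neg_mem hν'.one, fun x => by simp, fun x => by simp, x₀, by simp⟩
    rw [h3, if_pos ⟨Finset.card_empty, hF⟩] at hb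
    have h4 : (bd f + nuC ν (bd f)) ∅ = bd f ∅ + bd f ∅ := by
      show bd f ∅ + bd f ((∅ : Finset α).image ν) = _
      rw [Finset.image_empty]
    rw [h4, CharTwo.add_self_eq_zero] at hb
    exact one_ne_zero hb
  | succ d ih =>
    intro A hC hν hedge
    obtain ⟨ℓ, u, hC', hν', hch, h2, h3⟩ := geo_core (d + 1) A hC hν hedge
    refine ⟨u, hch, h2, hbd (d + 1) _ u hν' h3, ?_⟩
    rintro ⟨e, f, he, hf, hu⟩
    obtain ⟨u', hch', h2', h3', hno⟩ := ih (A ⊓ LinearMap.ker ℓ) hC' hν' (by
      rintro x y hxy ⟨g, hg, h1, h2, h3⟩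
      exact hedge x y hxy ⟨g, hg.1, h1, h2, h3⟩)
    have hb := hexp hν.inv u e f hu
    have hu' : u' + nuC ν u' = bd u := by
      funext T
      rw [h2', h3]
    rw [hb] at hu'
    have hinv' : nuC ν (u' + bd f) = u' + bd f := by
      rw [nuC_add]
      calc nuC ν u' + nuC ν (bd f) = (u' + u') + (nuC ν u' + nuC ν (bd f)) := by
            rw [add_self_chain, zero_add]
        _ = (u' + nuC ν u') + (u' + nuC ν (bd f)) := by abel
        _ = (bd f + nuC ν (bd f)) + (u' + nuC ν (bd f)) := by rw [hu']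
        _ = (nuC ν (bd f) + nuC ν (bd f)) + (u' + bd f) := by abel
        _ = u' + bd f := by rw [add_self_chain, zero_add]
    obtain ⟨f', hf', hf''⟩ := inv_rep hν.inv hne hfree (by omega) (hch'.add hf.bd) hinv'
    refine hno ⟨f, f', hf, hf', ?_⟩
    calc u' = (bd f + bd f) + u' := by rw [add_self_chain, zero_add]
      _ = bd f + (u' + bd f) := by abel
      _ = bd f + (f' + nuC ν f') := by rw [hf'']

end Pool.Agent.Work.MP_5f857a_co.X
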