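import Pool.Agent.Work.MP_5f857a_co.X.Defs

/-!
MODULE ToTK (M): `TX_k` contains a subdivision of `K_m` for every `m ≤ 3k/2` (Halin).

PROOF. `b`, `I` from `TX G k W`, `h := k / 2`. It is enough to treat `m = 3 * k / 2 = k + h` (a smaller set of
branch vertices: take a subset of `B`, the sets `I` can stay). Put
`B = {b (i, true) | i < k} ∪ {b (i, false) | i < h}` (`B.card = k + h` since `b` is injective).
For `i < h` put `j = k - h + i` (`h ≤ k - h ≤ j < k`, `j ≠ i`), the vertex `c_i = b (j, false)` is not in `B`, and the `c_i` are
different. The antipodal pair `b (i, true)`, `b (i, false)` is joined through `c_i`. Put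
`N s = I s` for all `s` except `s = s(b (i, true), b (i, false))`, `i < h`, where
`N s = I s(b (i, true), c_i) ∪ {c_i} ∪ I s(c_i, b (i, false))`
(for these `s` the set `I s` is dropped). For example
`N s = {x | (x ∈ I s ∧ s does not contain any c_i and is not antipodal) ∨ ∃ i < h, s = s(b (i, true), b (i, false)) ∧
(x ∈ I s(b (i, true), c_i) ∨ x = c_i ∨ x ∈ I s(c_i, b (i, false)))}`.
* pairs of `B` which are not antipodal: from `TX`; antipodal pairs of `B` have `i < h`: `Con.trans` through `c_i`.
* no vertex of `B` in `N s`: `b p ∉ I s` for all `p`, and `c_i ∉ B`.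
* disjointness: the pairs `s(b (i, true), c_i)`, `s(c_i, b (i, false))`, `i < h`, are `2h` different pairs, and they are
  different from every pair that does not contain any `c_i`; `c_i` is in no `I s`; the `c_i` are different.
The conclusion is stated with `W' = univ`.
-/

set_option autoImplicit false

namespace Pool.Agent.Work.MP_5f857a_co.X

open Pool.Agent.Work.MP_5f857a_co.L

variable {α : Type*}

private theorem cardB (k h : ℕ) (hh : h ≤ k) :
    ((Finset.univ : Finset (Fin k × Bool)).filter fun p => p.2 = true ∨ p.1.val < h).card =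
      k + h := by
  classical
  have h1 : ((Finset.univ : Finset (Fin k × Bool)).filter fun p => p.2 = true ∨ p.1.val < h) =
      (Finset.univ.image fun i : Fin k => (i, true)) ∪
        (Finset.univ.image fun i : Fin h => ((⟨i.val, by omega⟩ : Fin k), false)) := by
    ext ⟨i, s⟩
    simp only [Finset.mem_filter, Finset.mem_univ, true_and, Finset.mem_union, Finset.mem_image,
      Prod.mk.injEq]
    constructor
    · intro h2
      cases s with
      | true => exact Or.inl ⟨i, rfl, rfl⟩
      | false =>
        refine Or.inr ?_
        rcases h2 with h2 | h2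
        · exact absurd h2 (by simp)
        · exact ⟨⟨i.val, h2⟩, rfl, rfl⟩
    · rintro (⟨j, h2, h3⟩ | ⟨j, h2, h3⟩)
      · exact Or.inl h3.symm
      · right
        rw [← h2]
        exact j.2
  rw [h1, Finset.card_union_of_disjoint, Finset.card_image_of_injective,
    Finset.card_image_of_injective, Finset.card_univ, Finset.card_univ, Fintype.card_fin,
    Fintype.card_fin]
  · intro i j hij
    simp only [Prod.mk.injEq, Fin.mk.injEq, and_true] at hij
    exact Fin.ext hij
  · intro i j hij
    simp only [Prod.mk.injEq, and_true] at hij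
    exact hij
  · rw [Finset.disjoint_left]
    intro p hp hp'
    obtain ⟨i, -, rfl⟩ := Finset.mem_image.1 hp
    obtain ⟨j, -, hj⟩ := Finset.mem_image.1 hp'
    simp at hj

theorem toTK [DecidableEq α] {G : SimpleGraph α} {k m : ℕ} {W : Set α} (h : TX G k W)
    (hm : m ≤ 3 * k / 2) : ∃ B : Finset α, B.card = m ∧ TK G B Set.univ := by
  classical
  obtain ⟨b, hb, -, I, h1, -, h3, h4⟩ := h
  set h : ℕ := k / 2 with hh
  have hk : h + h ≤ k := by omega
  have hm' : m ≤ k + h := by omega
  set t : Fin h → α := fun i => b (⟨i.val, by omega⟩, true) with ht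
  set f : Fin h → α := fun i => b (⟨i.val, by omega⟩, false) with hf
  set c : Fin h → α := fun i => b (⟨k - h + i.val, by omega⟩, false) with hc
  have ct : ∀ i i', c i ≠ t i' := by
    intro i i' e
    have := hb e
    simp at this
  have cf : ∀ i i', c i ≠ f i' := by
    intro i i' e
    have := hb e
    simp only [Prod.mk.injEq, Fin.mk.injEq, and_true] at this
    omega
  have cc : ∀ i i', c i = c i' → i = i' := by
    intro i i' e
    have := hb e
    simp only [Prod.mk.injEq, Fin.mk.injEq, and_true] at this
    exact Fin.ext (by omega)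
  have tt : ∀ i i', t i = t i' → i = i' := by
    intro i i' e
    have := hb e
    simp only [Prod.mk.injEq, Fin.mk.injEq, and_true] at this
    exact Fin.ext this
  have ff : ∀ i i', f i = f i' → i = i' := by
    intro i i' e
    have := hb e
    simp only [Prod.mk.injEq, Fin.mk.injEq, and_true] at this
    exact Fin.ext this
  have tf : ∀ i i', t i ≠ f i' := by
    intro i i' e
    have := hb e
    simp at this
  have C1 : ∀ i, Con G ({t i, c i} ∪ I s(t i, c i)) (t i) (c i) := by
    intro i
    refine h1 _ _ fun e => ?_
    simp only [Fin.mk.injEq] at e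
    omega
  have C2 : ∀ i, Con G ({c i, f i} ∪ I s(c i, f i)) (c i) (f i) := by
    intro i
    refine h1 _ _ fun e => ?_
    simp only [Fin.mk.injEq] at e
    omega
  have It : ∀ s i, t i ∉ I s := fun s i => h3 s _
  have If : ∀ s i, f i ∉ I s := fun s i => h3 s _
  have Ic : ∀ s i, c i ∉ I s := fun s i => h3 s _
  set P : Fin k × Bool → Prop := fun p => p.2 = true ∨ p.1.val < h with hP
  have cP : ∀ i p, P p → c i ≠ b p := by
    intro i p hp e
    have := hb e
    rcases hp with hp | hp
    · rw [← this] at hp
      simp at hp
    · rw [← this] at hp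
      simp only at hp
      omega
  set D : Set (Sym2 α) := {s | ∃ i : Fin h, s = s(t i, f i) ∨ c i ∈ s} with hD
  set N : Sym2 α → Set α := fun s => {x | (x ∈ I s ∧ s ∉ D) ∨ ∃ i : Fin h, s = s(t i, f i) ∧
    (x ∈ I s(t i, c i) ∨ x = c i ∨ x ∈ I s(c i, f i))} with hN
  have key : ∃ B : Finset α, B.card = k + h ∧ TK G B Set.univ := by
    refine ⟨(Finset.univ.filter P).image b, ?_, N, ?_, fun s => Set.subset_univ _, ?_, ?_⟩
    · rw [Finset.card_image_of_injective _ hb]
      exact cardB k h (by omega)
    · intro x hx y hy hxy
      obtain ⟨p, hp, rfl⟩ := Finset.mem_image.1 hx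
      obtain ⟨q, hq, rfl⟩ := Finset.mem_image.1 hy
      have hp' : P p := (Finset.mem_filter.1 hp).2
      have hq' : P q := (Finset.mem_filter.1 hq).2
      by_cases hpq : p.1 = q.1
      · -- antipodal pair
        have main : ∀ i : Fin h, Con G ({t i, f i} ∪ N s(t i, f i)) (t i) (f i) := by
          intro i
          have e1 : Con G ({t i, f i} ∪ N s(t i, f i)) (t i) (c i) := by
            refine (C1 i).mono le_rfl ?_
            rintro z (hz | hz)
            · rcases hz with hz | hz
              · exact Or.inl (Or.inl hz)
              · exact Or.inr (Or.inr ⟨i, rfl, Or.inr (Or.inl hz)⟩)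
            · exact Or.inr (Or.inr ⟨i, rfl, Or.inl hz⟩)
          have e2 : Con G ({t i, f i} ∪ N s(t i, f i)) (c i) (f i) := by
            refine (C2 i).mono le_rfl ?_
            rintro z (hz | hz)
            · rcases hz with hz | hz
              · exact Or.inr (Or.inr ⟨i, rfl, Or.inr (Or.inl hz)⟩)
              · exact Or.inl (Or.inr hz)
            · exact Or.inr (Or.inr ⟨i, rfl, Or.inr (Or.inr hz)⟩)
          exact e1.trans e2
        obtain ⟨i, s⟩ := p
        obtain ⟨j, s'⟩ := q
        simp only at hpq
        subst hpq
        cases s with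
        | true =>
          cases s' with
          | true => exact absurd rfl hxy
          | false =>
            have hi : i.val < h := by
              rcases hq' with h5 | h5
              · simp at h5
              · exact h5
            exact main ⟨i.val, hi⟩
        | false =>
          cases s' with
          | false => exact absurd rfl hxy
          | true =>
            have hi : i.val < h := by
              rcases hp' with h5 | h5
              · simp at h5
              · exact h5
            have h6 := (main ⟨i.val, hi⟩).symm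
            have e1 : s(b (i, false), b (i, true)) = s(t ⟨i.val, hi⟩, f ⟨i.val, hi⟩) :=
              Sym2.eq_swap
            have e2 : ({b (i, false), b (i, true)} : Set α) = {t ⟨i.val, hi⟩, f ⟨i.val, hi⟩} :=
              Set.pair_comm _ _
            rw [e1, e2]
            exact h6
      · refine (h1 p q hpq).mono le_rfl ?_
        rintro z (hz | hz)
        · exact Or.inl hz
        · refine Or.inr (Or.inl ⟨hz, ?_⟩)
          rintro ⟨i, hi | hi⟩
          · rcases Sym2.eq_iff.1 hi with ⟨h5, h6⟩ | ⟨h5, h6⟩
            · have e1 := hb h5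
              have e2 := hb h6
              rw [e1, e2] at hpq
              exact hpq rfl
            · have e1 := hb h5
              have e2 := hb h6
              rw [e1, e2] at hpq
              exact hpq rfl
          · rcases Sym2.mem_iff.1 hi with h5 | h5
            · exact cP i p hp' h5
            · exact cP i q hq' h5
    · intro s x hx hxN
      obtain ⟨p, hp, rfl⟩ := Finset.mem_image.1 hx
      have hp' : P p := (Finset.mem_filter.1 hp).2
      rcases hxN with ⟨h5, -⟩ | ⟨i, -, h5 | h5 | h5⟩
      · exact h3 _ _ h5
      · exact h3 _ _ h5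
      · exact cP i p hp' h5.symm
      · exact h3 _ _ h5
    · have aux : ∀ s i x, s ∉ D → x ∈ I s →
          ¬ (x ∈ I s(t i, c i) ∨ x = c i ∨ x ∈ I s(c i, f i)) := by
        rintro s i x hs hx (h5 | h5 | h5)
        · refine (Set.disjoint_left.1 (h4 s s(t i, c i) fun e => hs ⟨i, Or.inr ?_⟩)) hx h5
          rw [e]
          exact Sym2.mem_mk_right _ _
        · rw [h5] at hx
          exact Ic _ _ hx
        · refine (Set.disjoint_left.1 (h4 s s(c i, f i) fun e => hs ⟨i, Or.inr ?_⟩)) hx h5
          rw [e]
          exact Sym2.mem_mk_left _ _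
      intro s s' hss
      rw [Set.disjoint_left]
      rintro x (⟨h5, h6⟩ | ⟨i, rfl, h5⟩) (⟨h7, h8⟩ | ⟨i', rfl, h7⟩)
      · exact Set.disjoint_left.1 (h4 s s' hss) h5 h7
      · exact aux s i' x h6 h5 h7
      · exact aux s' i x h8 h7 h5
      · have hii : i ≠ i' := fun e => hss (by rw [e])
        rcases h5 with h5 | h5 | h5
        · rcases h7 with h7 | h7 | h7
          · refine Set.disjoint_left.1 (h4 _ _ fun e => ?_) h5 h7
            rcases Sym2.eq_iff.1 e with ⟨h9, _⟩ | ⟨h9, _⟩
            · exact hii (tt _ _ h9)
            · exact ct _ _ h9.symm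
          · rw [h7] at h5
            exact Ic _ _ h5
          · refine Set.disjoint_left.1 (h4 _ _ fun e => ?_) h5 h7
            rcases Sym2.eq_iff.1 e with ⟨h9, _⟩ | ⟨h9, _⟩
            · exact ct _ _ h9.symm
            · exact tf _ _ h9
        · rcases h7 with h7 | h7 | h7
          · rw [h5] at h7
            exact Ic _ _ h7
          · exact hii (cc _ _ (h5.symm.trans h7))
          · rw [h5] at h7
            exact Ic _ _ h7
        · rcases h7 with h7 | h7 | h7
          · refine Set.disjoint_left.1 (h4 _ _ fun e => ?_) h5 h7
            rcases Sym2.eq_iff.1 e with ⟨h9, _⟩ | ⟨_, h9⟩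
            · exact ct _ _ h9
            · exact tf _ _ h9.symm
          · rw [h7] at h5
            exact Ic _ _ h5
          · refine Set.disjoint_left.1 (h4 _ _ fun e => ?_) h5 h7
            rcases Sym2.eq_iff.1 e with ⟨_, h9⟩ | ⟨h9, _⟩
            · exact hii (ff _ _ h9)
            · exact cf _ _ h9
  obtain ⟨B, hB, J, j1, j2, j3, j4⟩ := key
  obtain ⟨B', hB', hc'⟩ := Finset.exists_subset_card_eq (by omega : m ≤ B.card)
  exact ⟨B', hc', J, fun x hx y hy => j1 x (hB' hx) y (hB' hy), j2,
    fun s x hx => j3 s x (hB' hx), j4⟩

end Pool.Agent.Work.MP_5f857a_co.X
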