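import Pool.Agent.Work.MP_5f857a_co.X.Main
import Pool.Agent.Work.MP_5f857a_co.X.ToTK
import Pool.Agent.Work.MP_5f857a_co.X.Geo
import Pool.Agent.Work.MP_5f857a_co.M.AntiF
import Pool.Agent.Work.MP_5f857a_co.L.Final

/-!
MODULE Final: assembly. The graph of every centrally symmetric simplicial `d`-polytope contains a subdivision of
the graph of the `d`-dimensional cross-polytope, hence of the complete graph on `[3d/2]` vertices.
-/

set_option autoImplicit false

namespace Pool.Agent.Work.MP_5f857a_co.X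

open Pool.Agent.Work.MP_5f857a_co.L Pool.Agent.Work.MP_5f857a_co.M

variable {d : ℕ}

/-- the combinatorial core: a subdivision of a cross-polytope graph of dimension at least `d` -/
theorem exists_TX (V : Finset (EuclideanSpace ℝ (Fin (d + 1))))
    (hV : ∀ v ∈ V, -v ∈ V)
    (hconv : ∀ v ∈ V, v ∉ convexHull ℝ ((V : Set (EuclideanSpace ℝ (Fin (d + 1)))) \ {v}))
    (hspan : affineSpan ℝ (V : Set (EuclideanSpace ℝ (Fin (d + 1)))) = ⊤)
    (hsimp : ∀ (f : EuclideanSpace ℝ (Fin (d + 1)) →ₗ[ℝ] ℝ) (c : ℝ),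
          (∀ x ∈ V, f x ≤ c) → (∃ x ∈ V, f x < c) →
          AffineIndependent ℝ
            (fun x : {x : EuclideanSpace ℝ (Fin (d + 1)) // x ∈ V ∧ f x = c} =>
              (x : EuclideanSpace ℝ (Fin (d + 1))))) :
    ∃ k, d + 1 ≤ k ∧ TX (Gr (FcA (affA V)) ∅) k Set.univ := by
  classical
  have hC := affA_cfg V hspan hsimp
  have hA := affA_Anti V hV
  have h0 := zero_not_mem (Nat.succ_pos d) V hV hconv hspan
  set ν : {x // x ∈ V} → {x // x ∈ V} := fun x => ⟨-x.1, hV x.1 x.2⟩ with hν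
  set G := Gr (FcA (affA V)) ∅ with hG
  have hadj : ∀ x y, G.Adj x y ↔ x ≠ y ∧ FcA (affA V) {x, y} := by
    intro x y
    constructor
    · rintro ⟨h1, -, -, h2⟩
      exact ⟨h1, h2⟩
    · rintro ⟨h1, h2⟩
      exact ⟨h1, Finset.notMem_empty _, Finset.notMem_empty _, h2⟩
  have hne : ∀ x, ν x ≠ x := by
    intro x hx
    have h1 : -x.1 = x.1 := congrArg Subtype.val hx
    have h2 : x.1 = 0 := by
      rwa [neg_eq_iff_add_eq_zero, ← two_smul ℝ, smul_eq_zero_iff_right (by norm_num)] at h1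
    exact h0 (h2 ▸ x.2)
  have hfree : ∀ x, ¬ G.Adj x (ν x) := by
    intro x hx
    exact affA_anti V hV _ ((hadj _ _).1 hx).2 x (by simp) (by simp [hν])
  have hauto : ∀ x y, G.Adj x y → G.Adj (ν x) (ν y) := by
    intro x y hxy
    obtain ⟨h1, h2⟩ := (hadj x y).1 hxy
    refine (hadj _ _).2 ⟨fun h => h1 ?_, ?_⟩
    · rw [← hA.inv x, ← hA.inv y]
      exact congrArg ν h
    · have h3 := affA_neg V hV _ h2
      rw [Finset.image_insert, Finset.image_singleton] at h3
      exact h3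
  obtain ⟨u, hu1, -, hu3, hu4⟩ := geo hne hfree hauto d (affA V) hC hA
    fun x y hxy h => (hadj x y).2 ⟨hxy, h⟩
  by_contra hcon
  push Not at hcon
  have hac : ∀ k, d + 1 ≤ k → Acyc G Finset.univ k := by
    intro k hk
    by_contra h
    have h1 := tx_of_not_acyc G Finset.univ.card Finset.univ rfl k h
    rw [Finset.coe_univ] at h1
    exact hcon k hk h1
  obtain ⟨e, f, he, hf, hef⟩ := index_down hA.inv hne hfree hauto (Nat.succ_pos d) hac le_rfl hu1 hu3
  exact hu4 ⟨e, f, he, hf, hef⟩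

/-- Q1 in the form of the frozen statement -/
theorem full (d : ℕ) (V : Finset (EuclideanSpace ℝ (Fin d)))
    (hV : ∀ v ∈ V, -v ∈ V)
    (hconv : ∀ v ∈ V, v ∉ convexHull ℝ ((V : Set (EuclideanSpace ℝ (Fin d))) \ {v}))
    (hspan : affineSpan ℝ (V : Set (EuclideanSpace ℝ (Fin d))) = ⊤)
    (hsimp : ∀ (f : EuclideanSpace ℝ (Fin d) →ₗ[ℝ] ℝ) (c : ℝ),
          (∀ x ∈ V, f x ≤ c) → (∃ x ∈ V, f x < c) →
          AffineIndependent ℝ
            (fun x : {x : EuclideanSpace ℝ (Fin d) // x ∈ V ∧ f x = c} =>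
              (x : EuclideanSpace ℝ (Fin d)))) :
    ∃ (b : Fin (3 * d / 2) → EuclideanSpace ℝ (Fin d)),
      Function.Injective b ∧ (∀ i, b i ∈ V) ∧
      ∃ (p : (i j : Fin (3 * d / 2)) → (polyGraph V).Walk (b i) (b j)),
        (∀ i j, i < j → (p i j).IsPath) ∧
        (∀ i j k l, i < j → k < l → (i, j) ≠ (k, l) →
          ∀ x ∈ (p i j).support, x ∈ (p k l).support → x = b i ∨ x = b j) := by
  classical
  cases d with
  | zero => exact transfer V 0 ∅ rfl Set.univ (TK.clique (by simp))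
  | succ d =>
    obtain ⟨k, hk, hTX⟩ := exists_TX V hV hconv hspan hsimp
    obtain ⟨B, hB, hTK⟩ := toTK (m := 3 * (d + 1) / 2) hTX
      (Nat.div_le_div_right (Nat.mul_le_mul_left 3 hk))
    exact transfer V _ B hB _ hTK

end Pool.Agent.Work.MP_5f857a_co.X
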