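import Pool.Agent.Work.MP_5f857a_co.X.Defs

/-!
MODULE Bd2 (S): `bd (bd c) = 0` and `bd` commutes with the antipodal map.

PROOF. `bd (bd c) S = ∑ x ∈ Sᶜ, ∑ y ∈ (insert x S)ᶜ, c (insert y (insert x S))`: the sum over ordered pairs
`(x, y)`, `x ≠ y`, both outside `S`; the pairs `(x, y)` and `(y, x)` give the same value (`Finset.insert_comm`),
so the sum is 0 in characteristic 2 (`Finset.sum_involution` on the product / sigma finset filtered by `x ≠ y`,
the involution swaps, it has no fixed point).
`nuC_bd`: substitute `x = ν y` in the sum (`Finset.sum_nbij'` or `Equiv.sum_comp` for the involution `ν`);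
`(insert y S).image ν = insert (ν y) (S.image ν)`, `y ∉ S ↔ ν y ∉ S.image ν`.
-/

set_option autoImplicit false

namespace Pool.Agent.Work.MP_5f857a_co.X

open Pool.Agent.Work.MP_5f857a_co.L

variable {α : Type*}

theorem bd_bd [Fintype α] [DecidableEq α] (c : Finset α → ZMod 2) : bd (bd c) = 0 := by
  funext S
  show ∑ x ∈ Sᶜ, ∑ y ∈ (insert x S)ᶜ, c (insert y (insert x S)) = 0
  rw [Finset.sum_sigma' Sᶜ (fun x => (insert x S)ᶜ) (fun x y => c (insert y (insert x S)))]
  refine Finset.sum_involution (fun p _ => ⟨p.2, p.1⟩) ?_ ?_ ?_ ?_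
  · rintro ⟨x, y⟩ _
    show c (insert y (insert x S)) + c (insert x (insert y S)) = 0
    rw [Finset.insert_comm]
    exact CharTwo.add_self_eq_zero _
  · rintro ⟨x, y⟩ hp _ h
    rw [Finset.mem_sigma, Finset.mem_compl, Finset.mem_compl] at hp
    have h1 : y = x := congrArg Sigma.fst h
    apply hp.2
    show y ∈ insert x S
    rw [h1]
    exact Finset.mem_insert_self _ _
  · rintro ⟨x, y⟩ hp
    rw [Finset.mem_sigma, Finset.mem_compl, Finset.mem_compl] at hp ⊢
    obtain ⟨h1, h2⟩ := hp
    refine ⟨fun h => h2 (Finset.mem_insert_of_mem h), fun h => ?_⟩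
    rcases Finset.mem_insert.1 h with h | h
    · apply h2
      show y ∈ insert x S
      rw [show y = x from h.symm]
      exact Finset.mem_insert_self _ _
    · exact h1 h
  · rintro ⟨x, y⟩ _
    rfl

theorem bd_nuC [Fintype α] [DecidableEq α] {ν : α → α} (hν : ∀ x, ν (ν x) = x)
    (c : Finset α → ZMod 2) : bd (nuC ν c) = nuC ν (bd c) := by
  have hinj : Function.Injective ν := fun a b h => by rw [← hν a, h, hν]
  funext S
  show ∑ x ∈ Sᶜ, c ((insert x S).image ν) = ∑ x ∈ (S.image ν)ᶜ, c (insert x (S.image ν))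
  have hmem : ∀ x, ν x ∈ S.image ν ↔ x ∈ S := by
    intro x
    rw [Finset.mem_image]
    constructor
    · rintro ⟨z, hz, hzx⟩
      rw [← hinj hzx]
      exact hz
    · intro h
      exact ⟨x, h, rfl⟩
  refine Finset.sum_nbij' ν ν ?_ ?_ ?_ ?_ ?_
  · intro x hx
    rw [Finset.mem_compl] at hx ⊢
    rwa [hmem]
  · intro x hx
    rw [Finset.mem_compl] at hx ⊢
    intro h
    apply hx
    have := (hmem (ν x)).2 h
    rwa [hν] at this
  · intro x _
    exact hν x
  · intro x _
    exact hν x
  · intro x _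
    rw [Finset.image_insert]

end Pool.Agent.Work.MP_5f857a_co.X
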