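import Pool.Agent.Work.MP_5f857a_co.X.Bd2

/-!
MODULE Cone (S-M): a nonempty clique is acyclic; the empty set is acyclic in positive cardinality.

PROOF of `acyc_clique`. Fix `v ∈ W`. For a cycle `c` (`IsCh G W k c`, `bd c = 0`) put
`b T = if v ∈ T then c (T.erase v) else 0`. `b` is a chain of cliques with `k + 1` elements: if `b T ≠ 0` then
`v ∈ T`, `c (T.erase v) ≠ 0`, so `T = insert v (T.erase v) ⊆ W`, `T.card = k + 1`, all pairs in `W` are adjacent.
`bd b = c`: let `S` be a finset.
* `v ∉ S`: `bd b S = ∑ x ∉ S, b (insert x S)`; for `x ≠ v` the set `insert x S` does not contain `v`, so only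
  `x = v` counts: `b (insert v S) = c ((insert v S).erase v) = c S`.
* `v ∈ S`: `bd b S = ∑ x ∉ S, c ((insert x S).erase v) = ∑ x ∉ S, c (insert x (S.erase v))`. Now
  `0 = bd c (S.erase v) = ∑ x ∉ S.erase v, c (insert x (S.erase v)) = c (insert v (S.erase v)) + ∑ x ∉ S, ...`
  (`(S.erase v)ᶜ = insert v Sᶜ`), so `bd b S = - c S = c S` (characteristic 2).
-/

set_option autoImplicit false

namespace Pool.Agent.Work.MP_5f857a_co.X

open Pool.Agent.Work.MP_5f857a_co.L

variable {α : Type*}

theorem acyc_clique [Fintype α] [DecidableEq α] {G : SimpleGraph α} {W : Finset α}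
    (hne : W.Nonempty) (hcl : ∀ x ∈ W, ∀ y ∈ W, x ≠ y → G.Adj x y) (k : ℕ) : Acyc G W k := by
  obtain ⟨v, hv⟩ := hne
  intro c hc hcyc
  refine ⟨fun T => if v ∈ T then c (T.erase v) else 0, ?_, ?_⟩
  · intro T hT
    have hvT : v ∈ T := by
      by_contra h
      apply hT
      show (if v ∈ T then c (T.erase v) else 0) = 0
      rw [if_neg h]
    have hT' : c (T.erase v) ≠ 0 := by
      intro h
      apply hT
      show (if v ∈ T then c (T.erase v) else 0) = 0
      rw [if_pos hvT, h]
    obtain ⟨h1, h2, -⟩ := hc _ hT'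
    have hTW : T ⊆ W := by
      intro x hx
      by_cases hxv : x = v
      · rw [hxv]; exact hv
      · exact h1 (Finset.mem_erase.2 ⟨hxv, hx⟩)
    refine ⟨hTW, ?_, fun x hx y hy hxy => hcl x (hTW hx) y (hTW hy) hxy⟩
    rw [Finset.card_erase_of_mem hvT] at h2
    have := Finset.card_pos.2 ⟨v, hvT⟩
    omega
  · funext S
    show (∑ x ∈ Sᶜ, if v ∈ insert x S then c ((insert x S).erase v) else 0) = c S
    by_cases hvS : v ∈ S
    · have h0 : bd c (S.erase v) = 0 := by rw [hcyc]; rfl
      have hset : (S.erase v)ᶜ = insert v Sᶜ := by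
        ext x
        rw [Finset.mem_compl, Finset.mem_erase, Finset.mem_insert, Finset.mem_compl]
        by_cases hxv : x = v <;> simp [hxv]
      have h1 : c (insert v (S.erase v)) + ∑ x ∈ Sᶜ, c (insert x (S.erase v)) = 0 := by
        rw [← h0]
        show _ = ∑ x ∈ (S.erase v)ᶜ, c (insert x (S.erase v))
        rw [hset, Finset.sum_insert]
        rw [Finset.mem_compl, not_not]
        exact hvS
      rw [Finset.insert_erase hvS] at h1
      have h2 : (∑ x ∈ Sᶜ, if v ∈ insert x S then c ((insert x S).erase v) else 0) =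
          ∑ x ∈ Sᶜ, c (insert x (S.erase v)) := by
        apply Finset.sum_congr rfl
        intro x hx
        rw [if_pos (Finset.mem_insert_of_mem hvS)]
        congr 1
        apply Finset.erase_insert_of_ne
        intro h
        rw [Finset.mem_compl] at hx
        apply hx
        rw [h]
        exact hvS
      rw [h2]
      have h3 : c S + c S = 0 := CharTwo.add_self_eq_zero _
      have h4 : c S + ∑ x ∈ Sᶜ, c (insert x (S.erase v)) = c S + c S := by rw [h1, h3]
      exact add_left_cancel h4
    · rw [Finset.sum_eq_single v]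
      · rw [if_pos (Finset.mem_insert_self v S), Finset.erase_insert hvS]
      · intro x _ hxv
        rw [if_neg]
        intro h
        rcases Finset.mem_insert.1 h with h | h
        · exact hxv h.symm
        · exact hvS h
      · intro h
        rw [Finset.mem_compl] at h
        exact absurd hvS h

theorem acyc_empty [Fintype α] [DecidableEq α] {G : SimpleGraph α} (k : ℕ) :
    Acyc G ∅ (k + 1) := by
  intro c hc _
  have h0 : c = 0 := by
    funext T
    by_contra h
    obtain ⟨h1, h2, -⟩ := hc T h
    rw [Finset.subset_empty.1 h1, Finset.card_empty] at h2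
    omega
  exact ⟨0, isCh_zero, by rw [h0, bd_zero]⟩

end Pool.Agent.Work.MP_5f857a_co.X
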