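import Pool.Agent.Work.MP_5f857a_co.L.Fan

/-!
Definitions for the full solution of MP_5f857a_co (subdivisions of the graph of the cross-polytope).

`bd c`        : the augmented boundary mod 2 of a chain `c` (a function on finite sets).
`IsCh G W k c`: `c` is a chain of cliques of `G` with `k` elements inside `W`.
`Acyc G W k`  : the reduced homology mod 2 of the clique complex of `G[W]` in dimension `k - 1` is zero.
`nuC ν c`     : the antipodal chain.
`TX G k W`    : a subdivision of the graph of the `k`-dimensional cross-polytope in `G` inside `W`.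
-/

set_option autoImplicit false

namespace Pool.Agent.Work.MP_5f857a_co.X

open Pool.Agent.Work.MP_5f857a_co.L

variable {α : Type*}

/-- the augmented boundary mod 2 -/
def bd [Fintype α] [DecidableEq α] (c : Finset α → ZMod 2) : Finset α → ZMod 2 :=
  fun S => ∑ x ∈ Sᶜ, c (insert x S)

/-- `c` is a chain of cliques of `G` with `k` elements inside `W` -/
def IsCh (G : SimpleGraph α) (W : Finset α) (k : ℕ) (c : Finset α → ZMod 2) : Prop :=
  ∀ T, c T ≠ 0 → T ⊆ W ∧ T.card = k ∧ ∀ x ∈ T, ∀ y ∈ T, x ≠ y → G.Adj x y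

/-- the reduced homology mod 2 of the clique complex of `G[W]` vanishes in dimension `k - 1` -/
def Acyc [Fintype α] [DecidableEq α] (G : SimpleGraph α) (W : Finset α) (k : ℕ) : Prop :=
  ∀ c, IsCh G W k c → bd c = 0 → ∃ b, IsCh G W (k + 1) b ∧ bd b = c

/-- the antipodal chain -/
def nuC [DecidableEq α] (ν : α → α) (c : Finset α → ZMod 2) : Finset α → ZMod 2 :=
  fun T => c (T.image ν)

/-- a subdivision of the graph of the `k`-dimensional cross-polytope inside `W`: the branch vertices are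
`b (i, s)`, `i < k`, and `b (i, s)`, `b (j, t)` are joined when `i ≠ j` -/
def TX (G : SimpleGraph α) (k : ℕ) (W : Set α) : Prop :=
  ∃ b : Fin k × Bool → α, Function.Injective b ∧ (∀ p, b p ∈ W) ∧
    ∃ I : Sym2 α → Set α,
      (∀ p q, p.1 ≠ q.1 → Con G ({b p, b q} ∪ I s(b p, b q)) (b p) (b q)) ∧
      (∀ s, I s ⊆ W) ∧ (∀ s p, b p ∉ I s) ∧ ∀ s t, s ≠ t → Disjoint (I s) (I t)

/-- a fan from `a` to all vertices of `S` with inner vertices in `O` -/
def HasFan (G : SimpleGraph α) (a : α) (S O : Set α) : Prop :=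
  ∃ J : α → Set α, (∀ t ∈ S, Con G ({a, t} ∪ J t) a t) ∧ (∀ t, J t ⊆ O) ∧ (∀ t, a ∉ J t) ∧
    ∀ t t', t ≠ t' → Disjoint (J t) (J t')

theorem IsCh.mono {G : SimpleGraph α} {W W' : Finset α} {k : ℕ} {c : Finset α → ZMod 2}
    (h : IsCh G W k c) (hW : W ⊆ W') : IsCh G W' k c :=
  fun T hT => ⟨(h T hT).1.trans hW, (h T hT).2⟩

theorem IsCh.add {G : SimpleGraph α} {W : Finset α} {k : ℕ} {a b : Finset α → ZMod 2}
    (ha : IsCh G W k a) (hb : IsCh G W k b) : IsCh G W k (a + b) := by
  intro T hT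
  by_cases h : a T = 0
  · refine hb T fun h' => hT ?_
    rw [Pi.add_apply, h, h', add_zero]
  · exact ha T h

theorem isCh_zero {G : SimpleGraph α} {W : Finset α} {k : ℕ} : IsCh G W k 0 :=
  fun _ hT => absurd rfl hT

theorem TX.mono {G : SimpleGraph α} {k : ℕ} {W W' : Set α} (h : TX G k W) (hW : W ⊆ W') :
    TX G k W' := by
  obtain ⟨b, h1, h2, I, h3, h4, h5, h6⟩ := h
  exact ⟨b, h1, fun p => hW (h2 p), I, h3, fun s => (h4 s).trans hW, h5, h6⟩

section

variable [Fintype α] [DecidableEq α]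

theorem bd_add (a b : Finset α → ZMod 2) : bd (a + b) = bd a + bd b := by
  funext S
  simp only [bd, Pi.add_apply, Finset.sum_add_distrib]

theorem bd_zero : bd (0 : Finset α → ZMod 2) = 0 := by
  funext S
  simp [bd]

theorem add_self_chain (a : Finset α → ZMod 2) : a + a = 0 := by
  funext S
  exact CharTwo.add_self_eq_zero _

theorem nuC_add (ν : α → α) (a b : Finset α → ZMod 2) : nuC ν (a + b) = nuC ν a + nuC ν b := rfl

theorem nuC_nuC {ν : α → α} (hν : ∀ x, ν (ν x) = x) (c : Finset α → ZMod 2) :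
    nuC ν (nuC ν c) = c := by
  funext T
  show c ((T.image ν).image ν) = c T
  rw [Finset.image_image]
  have : ν ∘ ν = id := funext hν
  rw [this, Finset.image_id]

theorem IsCh.bd {G : SimpleGraph α} {W : Finset α} {k : ℕ} {c : Finset α → ZMod 2}
    (h : IsCh G W (k + 1) c) : IsCh G W k (bd c) := by
  intro S hS
  obtain ⟨x, hx, hx'⟩ := Finset.exists_ne_zero_of_sum_ne_zero hS
  rw [Finset.mem_compl] at hx
  obtain ⟨h1, h2, h3⟩ := h _ hx'
  refine ⟨(Finset.subset_insert x S).trans h1, ?_, fun y hy z hz => ?_⟩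
  · rw [Finset.card_insert_of_notMem hx] at h2
    omega
  · exact h3 y (Finset.mem_insert_of_mem hy) z (Finset.mem_insert_of_mem hz)

end

end Pool.Agent.Work.MP_5f857a_co.X
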