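import Pool.Agent.Work.MP_5f857a_co.X.Defs

/-!
MODULE Fans (M): the fan from a vertex of one side to ALL vertices of a minimum separator `S`.

`O` is (a union of components of) one side of the separation: the neighbours in `W` of vertices of `O` lie in
`O ∪ S`. `hmin`: fewer than `|S|` vertices do not disconnect `G[W]`.
PROOF. Apply `L.fan G (↑O ∪ ↑S) a S (a ∉ S, since O and S are disjoint) S.card`. Its hypothesis: let `X` be a
finset, `a ∉ X`, `X.card < S.card`. There is `s ∈ S`, `s ∉ X` (otherwise `S ⊆ X`). By `hmin` there is a walk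
from `a` to `s` in `W \ X`. `s ∉ O`. By `exit_of_con` (set `O`, see `L/ConB.lean`) there is a vertex `t` of this
walk, `t ∈ Bd G O` (a neighbour of a vertex of `O`, not in `O`), `t ∈ W \ X`, with
`Con G ((O ∪ {t}) ∩ (W \ X)) a t`; `t ∈ S` by `hcl`. So `t ∈ S`, `t ∉ X`, `Con G ((O ∪ S) \ X) a t`.
The result is `T ⊆ S`, `T.card = S.card`, so `T = S`, and sets `J t` with `J t ⊆ O ∪ S`, `J t ∩ S = ∅`
(the fourth property), `a ∉ J t`, pairwise disjoint, for `t ∈ S`. Put `J' t = if t ∈ S then J t else ∅`.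
-/

set_option autoImplicit false

namespace Pool.Agent.Work.MP_5f857a_co.X

open Pool.Agent.Work.MP_5f857a_co.L

variable {α : Type*}

theorem hasFan [Fintype α] [DecidableEq α] {G : SimpleGraph α} {W S O : Finset α} {a : α}
    (hS : S ⊆ W) (hO : O ⊆ W) (ha : a ∈ O) (hOS : Disjoint O S)
    (hcl : ∀ x ∈ O, ∀ y ∈ W, G.Adj x y → y ∈ O ∨ y ∈ S)
    (hmin : ∀ X : Finset α, X.card < S.card → ∀ u ∈ W, u ∉ X → ∀ v ∈ W, v ∉ X →
      Con G (↑W \ ↑X) u v) :
    HasFan G a ↑S ↑O := by
  have haS : a ∉ S := fun h => Finset.disjoint_left.1 hOS ha h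
  obtain ⟨T, hTS, hTc, J, h1, h2, h3, h4, h5⟩ :=
    fan G ((↑O : Set α) ∪ (↑S : Set α)) a S haS S.card (by
      intro X haX hXc
      obtain ⟨s, hs, hsX⟩ : ∃ s ∈ S, s ∉ X := by
        by_contra hcon
        push Not at hcon
        exact absurd (Finset.card_le_card (show S ⊆ X from hcon)) (by omega)
      have hcon := hmin X hXc a (hO ha) haX s (hS hs) hsX
      have hsO : s ∉ (↑O : Set α) := fun h => Finset.disjoint_left.1 hOS (Finset.mem_coe.1 h) hs
      obtain ⟨t, ht, htW, hc⟩ := exit_of_con hcon (Finset.mem_coe.2 ha) hsO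
      obtain ⟨htO, o, hoO, hadj⟩ := ht
      have htS : t ∈ S := by
        rcases hcl o (Finset.mem_coe.1 hoO) t (Finset.mem_coe.1 htW.1) hadj.symm with h | h
        · exact absurd (Finset.mem_coe.2 h) htO
        · exact h
      refine ⟨t, htS, fun h => htW.2 (Finset.mem_coe.2 h), hc.mono le_rfl ?_⟩
      rintro x ⟨hx | hx, hxW, hxX⟩
      · exact ⟨Or.inl hx, hxX⟩
      · rw [Set.mem_singleton_iff] at hx
        subst hx
        exact ⟨Or.inr (Finset.mem_coe.2 htS), hxX⟩)
  have hTeq : T = S := Finset.eq_of_subset_of_card_le hTS hTc.ge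
  subst hTeq
  refine ⟨fun t => if t ∈ T then J t else ∅, ?_, ?_, ?_, ?_⟩
  · intro t ht
    have ht' : t ∈ T := Finset.mem_coe.1 ht
    simp only [if_pos ht']
    exact h1 t ht'
  · intro t
    by_cases ht : t ∈ T
    · simp only [if_pos ht]
      intro x hx
      rcases h2 t ht hx with h | h
      · exact h
      · exact absurd hx (h4 t ht x (Finset.mem_coe.1 h))
    · simp only [if_neg ht]
      exact Set.empty_subset _
  · intro t
    by_cases ht : t ∈ T
    · simp only [if_pos ht]
      exact h3 t ht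
    · simp only [if_neg ht]
      exact Set.notMem_empty _
  · intro t t' htt
    by_cases ht : t ∈ T
    · by_cases ht' : t' ∈ T
      · simp only [if_pos ht, if_pos ht']
        exact h5 t ht t' ht' htt
      · simp only [if_neg ht']
        exact Set.disjoint_empty _
    · simp only [if_neg ht]
      exact Set.empty_disjoint _

end Pool.Agent.Work.MP_5f857a_co.X
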