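import Pool.Agent.Work.MP_5f857a_co.X.Bd2

/-!
MODULE Inv (M): the algebra of the free involution.

`inv_rep`: an invariant chain `c` (`nuC ν c = c`) of cliques with `k ≥ 1` elements is `f + nuC ν f`.
PROOF. Take a linear order on `Finset α` (for example an embedding `e : Finset α → ℕ`, `Finset α` is a fintype, or
`Fintype.equivFin`). Put `f T = if e T < e (T.image ν) then c T else 0`. `f` is a chain (support inside that of `c`).
If `c T ≠ 0` then `T` is a nonempty clique, and `T.image ν ≠ T`: for `x ∈ T`, `ν x ∈ T`, `ν x ≠ x` (`hne`), so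
`G.Adj x (ν x)`, against `hfree`. So exactly one of `e T < e (T.image ν)`, `e (T.image ν) < e T` holds, and
`(T.image ν).image ν = T`. Hence `f T + f (T.image ν) = c T` (use `c (T.image ν) = c T`); if `c T = 0` then
`c (T.image ν) = 0` and both sides are 0.

`index_down`: assume `Acyc G univ k` for all `k ≥ d`, `d ≥ 1`. Then every chain `c` with `k ≥ d` elements and
`bd (c + nuC ν c) = 0` is `bd e + (f + nuC ν f)`.
PROOF by downward induction on `k` (induction on `n`, for all `k` with `k + n > Fintype.card α`; if
`k > Fintype.card α` then `c = 0` because there are no finsets with `k` elements; `e = f = 0`). Step: `c + nuC ν c` is a chain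
(`ν` preserves cliques by `hG`) and a cycle, so by `Acyc` there is a chain `c'` with `k + 1` elements,
`bd c' = c + nuC ν c`. `bd (c' + nuC ν c') = (c + nuC ν c) + nuC ν (c + nuC ν c) = 0` (`bd_nuC`, `nuC_nuC`,
characteristic 2). By induction `c' = bd e' + (f' + nuC ν f')`, so
`c + nuC ν c = bd c' = bd f' + nuC ν (bd f')` (`bd_bd`), so `c + bd f'` is invariant; by `inv_rep`
`c + bd f' = f + nuC ν f`, so `c = bd f' + (f + nuC ν f)`.
-/

set_option autoImplicit false

namespace Pool.Agent.Work.MP_5f857a_co.X

open Pool.Agent.Work.MP_5f857a_co.L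

variable {α : Type*}

theorem isCh_nuC [Fintype α] [DecidableEq α] {G : SimpleGraph α} {ν : α → α}
    (hν : ∀ x, ν (ν x) = x) (hG : ∀ x y, G.Adj x y → G.Adj (ν x) (ν y)) {k : ℕ}
    {c : Finset α → ZMod 2} (hc : IsCh G Finset.univ k c) : IsCh G Finset.univ k (nuC ν c) := by
  have hinj : Function.Injective ν := fun a b h => by rw [← hν a, h, hν]
  intro T hT
  obtain ⟨-, h2, h3⟩ := hc (T.image ν) hT
  refine ⟨Finset.subset_univ _, ?_, fun x hx y hy hxy => ?_⟩
  · rwa [Finset.card_image_of_injective _ hinj] at h2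
  · have := hG _ _ (h3 (ν x) (Finset.mem_image_of_mem ν hx) (ν y) (Finset.mem_image_of_mem ν hy)
      (fun h => hxy (hinj h)))
    rwa [hν, hν] at this

private theorem inv_ii [DecidableEq α] {ν : α → α} (hν : ∀ x, ν (ν x) = x) (T : Finset α) :
    (T.image ν).image ν = T := by
  rw [Finset.image_image]
  have : ν ∘ ν = id := funext hν
  rw [this, Finset.image_id]

theorem inv_rep [Fintype α] [DecidableEq α] {G : SimpleGraph α} {ν : α → α}
    (hν : ∀ x, ν (ν x) = x) (hne : ∀ x, ν x ≠ x) (hfree : ∀ x, ¬ G.Adj x (ν x)) {k : ℕ} (hk : 1 ≤ k)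
    {c : Finset α → ZMod 2} (hc : IsCh G Finset.univ k c) (hinv : nuC ν c = c) :
    ∃ f, IsCh G Finset.univ k f ∧ c = f + nuC ν f := by
  classical
  have hcinv : ∀ T, c (T.image ν) = c T := fun T => congrFun hinv T
  let e : Finset α → ℕ := fun T => (Fintype.equivFin (Finset α) T : ℕ)
  have he : ∀ S T, e S = e T → S = T := by
    intro S T h
    exact (Fintype.equivFin (Finset α)).injective (Fin.ext h)
  refine ⟨fun T => if e T < e (T.image ν) then c T else 0, ?_, ?_⟩
  · intro T hT
    apply hc
    intro h
    apply hT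
    show (if e T < e (T.image ν) then c T else 0) = 0
    rw [h, ite_self]
  · funext T
    show c T = (if e T < e (T.image ν) then c T else 0) +
      (if e (T.image ν) < e ((T.image ν).image ν) then c (T.image ν) else 0)
    rw [inv_ii hν, hcinv]
    by_cases h0 : c T = 0
    · rw [h0]
      simp
    · obtain ⟨-, h2, h3⟩ := hc T h0
      have hTne : T.Nonempty := by
        rw [← Finset.card_pos]
        omega
      have hneq : e (T.image ν) ≠ e T := by
        intro h
        have h4 := he _ _ h
        obtain ⟨x, hx⟩ := hTne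
        have h5 : ν x ∈ T := by
          rw [← h4]
          exact Finset.mem_image_of_mem ν hx
        exact hfree x (h3 x hx (ν x) h5 (hne x).symm)
      rcases lt_or_gt_of_ne hneq with h | h
      · rw [if_neg (not_lt.2 h.le), if_pos h, zero_add]
      · rw [if_pos h, if_neg (not_lt.2 h.le), add_zero]

theorem index_down [Fintype α] [DecidableEq α] {G : SimpleGraph α} {ν : α → α}
    (hν : ∀ x, ν (ν x) = x) (hne : ∀ x, ν x ≠ x) (hfree : ∀ x, ¬ G.Adj x (ν x))
    (hG : ∀ x y, G.Adj x y → G.Adj (ν x) (ν y)) {d : ℕ} (hd : 1 ≤ d)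
    (hac : ∀ k, d ≤ k → Acyc G Finset.univ k) {k : ℕ} (hk : d ≤ k) {c : Finset α → ZMod 2}
    (hc : IsCh G Finset.univ k c) (hcyc : bd (c + nuC ν c) = 0) :
    ∃ e f, IsCh G Finset.univ (k + 1) e ∧ IsCh G Finset.univ k f ∧
      c = bd e + (f + nuC ν f) := by
  have key : ∀ n : ℕ, ∀ k : ℕ, d ≤ k → Fintype.card α < k + n → ∀ c : Finset α → ZMod 2,
      IsCh G Finset.univ k c → bd (c + nuC ν c) = 0 →
      ∃ e f, IsCh G Finset.univ (k + 1) e ∧ IsCh G Finset.univ k f ∧
        c = bd e + (f + nuC ν f) := by
    intro n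
    induction n with
    | zero =>
      intro k _ hcard c hc _
      refine ⟨0, 0, isCh_zero, isCh_zero, ?_⟩
      have h0 : c = 0 := by
        funext T
        by_contra h
        obtain ⟨-, h2, -⟩ := hc T h
        have := Finset.card_le_univ T
        omega
      rw [h0, bd_zero]
      funext T
      show (0 : ZMod 2) = 0 + (0 + 0)
      simp
    | succ n ih =>
      intro k hk hcard c hc hcyc
      obtain ⟨c', hc', hbc'⟩ := hac k hk _ (hc.add (isCh_nuC hν hG hc)) hcyc
      have hcyc' : bd (c' + nuC ν c') = 0 := by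
        rw [bd_add, bd_nuC hν, hbc', nuC_add, nuC_nuC hν]
        rw [add_comm (nuC ν c) c]
        exact add_self_chain _
      obtain ⟨e', f', he', hf', hce⟩ := ih (k + 1) (by omega) (by omega) c' hc' hcyc'
      have hbf : c + nuC ν c = bd f' + nuC ν (bd f') := by
        rw [← hbc', hce, bd_add, bd_bd, bd_add, bd_nuC hν, zero_add]
      have hinv : nuC ν (c + bd f') = c + bd f' := by
        rw [nuC_add]
        have h1 : (c + nuC ν c) + (c + bd f') = (bd f' + nuC ν (bd f')) + (c + bd f') := by
          rw [hbf]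
        have h2 : (c + nuC ν c) + (c + bd f') = nuC ν c + bd f' := by
          calc (c + nuC ν c) + (c + bd f') = (c + c) + (nuC ν c + bd f') := by abel
            _ = nuC ν c + bd f' := by rw [add_self_chain, zero_add]
        have h3 : (bd f' + nuC ν (bd f')) + (c + bd f') = nuC ν (bd f') + c := by
          calc (bd f' + nuC ν (bd f')) + (c + bd f') =
              (bd f' + bd f') + (nuC ν (bd f') + c) := by abel
            _ = nuC ν (bd f') + c := by rw [add_self_chain, zero_add]
        rw [h2, h3] at h1
        calc nuC ν c + nuC ν (bd f') = (nuC ν c + bd f') + (bd f' + nuC ν (bd f')) := by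
              calc nuC ν c + nuC ν (bd f') = 0 + (nuC ν c + nuC ν (bd f')) := by rw [zero_add]
                _ = (bd f' + bd f') + (nuC ν c + nuC ν (bd f')) := by rw [add_self_chain]
                _ = (nuC ν c + bd f') + (bd f' + nuC ν (bd f')) := by abel
          _ = (nuC ν (bd f') + c) + (bd f' + nuC ν (bd f')) := by rw [h1]
          _ = (nuC ν (bd f') + nuC ν (bd f')) + (c + bd f') := by abel
          _ = c + bd f' := by rw [add_self_chain, zero_add]
      obtain ⟨f, hf, hcf⟩ := inv_rep hν hne hfree (by omega) (hc.add hf'.bd) hinv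
      refine ⟨f', f, hf', hf, ?_⟩
      calc c = (bd f' + bd f') + c := by rw [add_self_chain, zero_add]
        _ = bd f' + (c + bd f') := by abel
        _ = bd f' + (f + nuC ν f) := by rw [hcf]
  exact key (Fintype.card α + 1) k hk (by omega) c hc hcyc

end Pool.Agent.Work.MP_5f857a_co.X
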