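import Pool.Agent.Work.MP_5f857a_co.X.Bd2

/-!
MODULE MV (M): Mayer-Vietoris for a separation of a graph.

PROOF. Let `c` be a chain of cliques with `k + 1` elements in `A ∪ S ∪ B`, `bd c = 0`. Put
`p T = if T ⊆ A ∪ S then c T else 0`, `q T = if T ⊆ A ∪ S then 0 else c T`; `c = p + q`.
* `p` is a chain in `A ∪ S`. `q` is a chain in `S ∪ B`: if `q T ≠ 0` then `T` is a clique in `A ∪ S ∪ B` which is
  not in `A ∪ S`, so it contains some `b ∈ B`, `b ∉ A`; an `a ∈ T`, `a ∈ A`, would be different from `b` and
  adjacent to it, against `hAB`; so `T ⊆ S ∪ B`.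
* `bd p + bd q = bd c = 0`, so `e := bd p = bd q` (characteristic 2). `e` is a chain of cliques with `k` elements
  (`IsCh.bd`) in `A ∪ S` and in `S ∪ B`, so in `S` (`A`, `B` disjoint). `bd e = 0` (`bd_bd`).
* `hS` gives a chain `r` in `S` with `k + 1` elements and `bd r = e`. `p + r` is a cycle in `A ∪ S`, `q + r` is a
  cycle in `S ∪ B`. `hA`, `hB` give `u`, `v` with `bd u = p + r`, `bd v = q + r`;
  `bd (u + v) = p + r + (q + r) = p + q = c`.
-/

set_option autoImplicit false

namespace Pool.Agent.Work.MP_5f857a_co.X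

open Pool.Agent.Work.MP_5f857a_co.L

variable {α : Type*}

theorem mv [Fintype α] [DecidableEq α] {G : SimpleGraph α} {A S B : Finset α} {k : ℕ}
    (hdis : Disjoint A B) (hAB : ∀ a ∈ A, ∀ b ∈ B, ¬ G.Adj a b)
    (hA : Acyc G (A ∪ S) (k + 1)) (hB : Acyc G (S ∪ B) (k + 1)) (hS : Acyc G S k) :
    Acyc G (A ∪ S ∪ B) (k + 1) := by
  intro c hc hbc
  set p : Finset α → ZMod 2 := fun T => if T ⊆ A ∪ S then c T else 0 with hp
  set q : Finset α → ZMod 2 := fun T => if T ⊆ A ∪ S then 0 else c T with hq
  have hpq : p + q = c := by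
    funext T
    simp only [hp, hq, Pi.add_apply]
    split_ifs <;> simp
  have hpc : IsCh G (A ∪ S) (k + 1) p := by
    intro T hT
    simp only [hp] at hT
    split_ifs at hT with h
    · exact ⟨h, (hc T hT).2⟩
    · exact absurd rfl hT
  have hqc : IsCh G (S ∪ B) (k + 1) q := by
    intro T hT
    simp only [hq] at hT
    split_ifs at hT with h
    · exact absurd rfl hT
    · obtain ⟨h1, h2, h3⟩ := hc T hT
      refine ⟨?_, h2, h3⟩
      obtain ⟨b, hbT, hbn⟩ := Finset.not_subset.1 h
      have hbB : b ∈ B := by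
        rcases Finset.mem_union.1 (h1 hbT) with h4 | h4
        · exact absurd h4 hbn
        · exact h4
      intro x hx
      rcases Finset.mem_union.1 (h1 hx) with h4 | h4
      · rcases Finset.mem_union.1 h4 with h5 | h5
        · exfalso
          have hxb : x ≠ b := by
            rintro rfl
            exact Finset.disjoint_left.1 hdis h5 hbB
          exact hAB x h5 b hbB (h3 x hx b hbT hxb)
        · exact Finset.mem_union_left _ h5
      · exact Finset.mem_union_right _ h4
  have he : bd p = bd q := by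
    have h1 : bd p + bd q = 0 := by rw [← bd_add, hpq, hbc]
    have h2 := add_self_chain (bd q)
    have h3 : bd p + bd q + bd q = bd q := by rw [h1, zero_add]
    rw [add_assoc, h2, add_zero] at h3
    exact h3
  have heS : IsCh G S k (bd p) := by
    intro T hT
    obtain ⟨h1, h2, h3⟩ := hpc.bd T hT
    have h4 := (hqc.bd T (by rw [← he]; exact hT)).1
    refine ⟨fun x hx => ?_, h2, h3⟩
    rcases Finset.mem_union.1 (h1 hx) with h5 | h5
    · rcases Finset.mem_union.1 (h4 hx) with h6 | h6
      · exact h6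
      · exact absurd h6 (Finset.disjoint_left.1 hdis h5)
    · exact h5
  obtain ⟨r, hr, hbr⟩ := hS (bd p) heS (bd_bd p)
  obtain ⟨u, hu, hbu⟩ := hA (p + r) (hpc.add (hr.mono Finset.subset_union_right))
    (by rw [bd_add, hbr, add_self_chain])
  obtain ⟨v, hv, hbv⟩ := hB (q + r) (hqc.add (hr.mono Finset.subset_union_left))
    (by rw [bd_add, hbr, he, add_self_chain])
  refine ⟨u + v, (hu.mono Finset.subset_union_left).add (hv.mono ?_), ?_⟩
  · intro x hx
    rcases Finset.mem_union.1 hx with h | h
    · exact Finset.mem_union_left _ (Finset.mem_union_right _ h)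
    · exact Finset.mem_union_right _ h
  · rw [bd_add, hbu, hbv]
    have h1 : p + r + (q + r) = (p + q) + (r + r) := by abel
    rw [h1, add_self_chain, add_zero, hpq]

end Pool.Agent.Work.MP_5f857a_co.X
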