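import Pool.Agent.Work.MP_5f857a_co.X.Defs

/-!
MODULE Step (M): `TX_k` in `S` and two fans onto `S` give `TX_(k+1)`.

PROOF. `b`, `I` from `TX G k S`; `J` for `a` (inner vertices in `O`), `J'` for `a'` (inner vertices in `O'`).
New branch vertices: `b' (i.castSucc, s) = b (i, s)`, `b' (last k, true) = a`, `b' (last k, false) = a'`
(`Fin.lastCases` or `if h : p.1.1 < k then b (⟨p.1.1, h⟩, p.2) else if p.2 then a else a'`).
New sets: `I' s = ` union of `I s \ {..}`... precisely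
`I' s = {x | (x ∈ I s) ∨ (∃ t ∈ S, s = s(a, t) ∧ x ∈ J t) ∨ (∃ t ∈ S, s = s(a', t) ∧ x ∈ J' t)}`.
But the given `I s(a, t)` is also a subset of `S` and disjoint from the other `I`, so nothing is lost if it is kept:
* connection: two old branch vertices: `I s ⊆ I' s` (`Con.mono`); `a` and `b (i, s) = t ∈ S`:
  `Con G ({a, t} ∪ J t) a t`, `J t ⊆ I' s(a, t)`; symmetric versions by `Con.symm`, `Sym2.eq_swap`.
* `I' s ⊆ W`.
* no branch vertex in `I' s`: `I s ⊆ S` contains no old branch vertex, and not `a`, `a'` (`a ∈ O`, disjoint from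
  `S`); `J t ⊆ O` contains no old branch vertex (in `S`), not `a` (third property of the fan), not `a' ∈ O'`.
* disjointness: `I s`, `I t` disjoint; `I s ⊆ S`, `J t ⊆ O`, `J' t ⊆ O'` are disjoint from each other; for
  `s ≠ s'` with `s = s(a, t)`, `s' = s(a, t')`, `t ≠ t'`, so `J t`, `J t'` are disjoint. The same for `J'`.
-/

set_option autoImplicit false

namespace Pool.Agent.Work.MP_5f857a_co.X

open Pool.Agent.Work.MP_5f857a_co.L

variable {α : Type*}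

theorem step {G : SimpleGraph α} {k : ℕ} {S O O' W : Set α} {a a' : α}
    (h : TX G k S) (ha : a ∈ O) (ha' : a' ∈ O') (hSO : Disjoint S O) (hSO' : Disjoint S O')
    (hOO' : Disjoint O O') (hS : S ⊆ W) (hO : O ⊆ W) (hO' : O' ⊆ W)
    (hf : HasFan G a S O) (hf' : HasFan G a' S O') : TX G (k + 1) W := by
  classical
  obtain ⟨b, hb, hbS, I, h3, h4, h5, h6⟩ := h
  obtain ⟨J, j1, j2, j3, j4⟩ := hf
  obtain ⟨J', j1', j2', j3', j4'⟩ := hf'
  have hSO : ∀ x, x ∈ S → x ∈ O → False := fun x hx hy => (Set.disjoint_left.1 hSO) hx hy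
  have hSO' : ∀ x, x ∈ S → x ∈ O' → False := fun x hx hy => (Set.disjoint_left.1 hSO') hx hy
  have hOO' : ∀ x, x ∈ O → x ∈ O' → False := fun x hx hy => (Set.disjoint_left.1 hOO') hx hy
  obtain ⟨b', hb'⟩ : ∃ b' : Fin (k + 1) × Bool → α, b' = fun p : Fin (k + 1) × Bool =>
    (if h : p.1.1 < k then b (⟨p.1.1, h⟩, p.2) else if p.2 = true then a else a') := ⟨_, rfl⟩
  obtain ⟨I', hI'⟩ : ∃ I' : Sym2 α → Set α, ∀ s x, x ∈ I' s ↔ (x ∈ I s ∨
      (∃ t ∈ S, s = s(a, t) ∧ x ∈ J t) ∨ (∃ t ∈ S, s = s(a', t) ∧ x ∈ J' t)) :=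
    ⟨fun s => {x | x ∈ I s ∨ (∃ t ∈ S, s = s(a, t) ∧ x ∈ J t) ∨
      (∃ t ∈ S, s = s(a', t) ∧ x ∈ J' t)}, fun s x => Iff.rfl⟩
  have hcase : ∀ p : Fin (k + 1) × Bool, (∃ q : Fin k × Bool, b' p = b q ∧ p.1.1 = q.1.1 ∧ p.2 = q.2) ∨
      (p.1.1 = k ∧ p.2 = true ∧ b' p = a) ∨ (p.1.1 = k ∧ p.2 = false ∧ b' p = a') := by
    rintro ⟨i, s⟩
    by_cases hi : i.1 < k
    · refine Or.inl ⟨(⟨i.1, hi⟩, s), ?_, rfl, rfl⟩
      rw [hb']
      simp only [hi, dif_pos]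
    · have hik : i.1 = k := by omega
      right
      cases s
      · right
        refine ⟨hik, rfl, ?_⟩
        rw [hb']
        simp [hi]
      · left
        refine ⟨hik, rfl, ?_⟩
        rw [hb']
        simp [hi]
  have hpq : ∀ p q : Fin (k + 1) × Bool, p.1.1 = q.1.1 → p.2 = q.2 → p = q :=
    fun p q h1 h2 => Prod.ext (Fin.ext h1) h2
  have hII : ∀ s, I s ⊆ I' s := fun s x hx => (hI' s x).2 (Or.inl hx)
  have hJI : ∀ t ∈ S, J t ⊆ I' s(a, t) := fun t ht x hx => (hI' _ x).2 (Or.inr (Or.inl ⟨t, ht, rfl, hx⟩))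
  have hJI' : ∀ t ∈ S, J' t ⊆ I' s(a', t) :=
    fun t ht x hx => (hI' _ x).2 (Or.inr (Or.inr ⟨t, ht, rfl, hx⟩))
  have ca : ∀ t ∈ S, Con G ({a, t} ∪ I' s(a, t)) a t := fun t ht =>
    Con.mono le_rfl (Set.union_subset_union_right _ (hJI t ht)) (j1 t ht)
  have ca' : ∀ t ∈ S, Con G ({a', t} ∪ I' s(a', t)) a' t := fun t ht =>
    Con.mono le_rfl (Set.union_subset_union_right _ (hJI' t ht)) (j1' t ht)
  have csym : ∀ x y, Con G ({x, y} ∪ I' s(x, y)) x y → Con G ({y, x} ∪ I' s(y, x)) y x := by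
    intro x y hxy
    rw [Set.pair_comm, Sym2.eq_swap]
    exact hxy.symm
  have eqa : ∀ t ∈ S, ∀ t' ∈ S, s(a, t) = s(a, t') → t = t' := by
    intro t ht t' ht' hst
    rw [Sym2.eq_iff] at hst
    rcases hst with ⟨-, h2⟩ | ⟨h1, h2⟩
    · exact h2
    · exact h2.trans h1
  have eqa' : ∀ t ∈ S, ∀ t' ∈ S, s(a', t) = s(a', t') → t = t' := by
    intro t ht t' ht' hst
    rw [Sym2.eq_iff] at hst
    rcases hst with ⟨-, h2⟩ | ⟨h1, h2⟩
    · exact h2
    · exact h2.trans h1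
  refine ⟨b', ?_, ?_, I', ?_, ?_, ?_, ?_⟩
  · intro p q hpq'
    rcases hcase p with ⟨p', e1, e2, e3⟩ | ⟨e1, e2, e3⟩ | ⟨e1, e2, e3⟩ <;>
    rcases hcase q with ⟨q', f1, f2, f3⟩ | ⟨f1, f2, f3⟩ | ⟨f1, f2, f3⟩
    · rw [e1, f1] at hpq'
      have := hb hpq'
      subst this
      exact hpq _ _ (e2.trans f2.symm) (e3.trans f3.symm)
    · rw [e1, f3] at hpq'
      exact (hSO a (hpq' ▸ hbS _) ha).elim
    · rw [e1, f3] at hpq'
      exact (hSO' a' (hpq' ▸ hbS _) ha').elim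
    · rw [e3, f1] at hpq'
      exact (hSO a (hpq' ▸ hbS _) ha).elim
    · exact hpq _ _ (e1.trans f1.symm) (e2.trans f2.symm)
    · rw [e3, f3] at hpq'
      exact (hOO' a ha (hpq' ▸ ha')).elim
    · rw [e3, f1] at hpq'
      exact (hSO' a' (hpq' ▸ hbS _) ha').elim
    · rw [e3, f3] at hpq'
      exact (hOO' a ha (hpq' ▸ ha')).elim
    · exact hpq _ _ (e1.trans f1.symm) (e2.trans f2.symm)
  · intro p
    rcases hcase p with ⟨p', e1, e2, e3⟩ | ⟨e1, e2, e3⟩ | ⟨e1, e2, e3⟩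
    · rw [e1]
      exact hS (hbS _)
    · rw [e3]
      exact hO ha
    · rw [e3]
      exact hO' ha'
  · intro p q hne
    rcases hcase p with ⟨p', e1, e2, e3⟩ | ⟨e1, e2, e3⟩ | ⟨e1, e2, e3⟩ <;>
    rcases hcase q with ⟨q', f1, f2, f3⟩ | ⟨f1, f2, f3⟩ | ⟨f1, f2, f3⟩
    · rw [e1, f1]
      have hne' : p'.1 ≠ q'.1 := by
        intro hh
        apply hne
        apply Fin.ext
        rw [e2, f2, hh]
      exact Con.mono le_rfl (Set.union_subset_union_right _ (hII _)) (h3 p' q' hne')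
    · rw [e1, f3]
      exact csym _ _ (ca _ (hbS _))
    · rw [e1, f3]
      exact csym _ _ (ca' _ (hbS _))
    · rw [e3, f1]
      exact ca _ (hbS _)
    · exact (hne (Fin.ext (e1.trans f1.symm))).elim
    · exact (hne (Fin.ext (e1.trans f1.symm))).elim
    · rw [e3, f1]
      exact ca' _ (hbS _)
    · exact (hne (Fin.ext (e1.trans f1.symm))).elim
    · exact (hne (Fin.ext (e1.trans f1.symm))).elim
  · intro s x hx
    rcases (hI' s x).1 hx with hx | ⟨t, -, -, hx⟩ | ⟨t, -, -, hx⟩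
    · exact hS (h4 s hx)
    · exact hO (j2 t hx)
    · exact hO' (j2' t hx)
  · intro s p hx
    rcases (hI' s _).1 hx with hx | ⟨t, -, -, hx⟩ | ⟨t, -, -, hx⟩ <;>
    rcases hcase p with ⟨p', e1, e2, e3⟩ | ⟨e1, e2, e3⟩ | ⟨e1, e2, e3⟩
    · rw [e1] at hx
      exact h5 _ _ hx
    · rw [e3] at hx
      exact hSO _ (h4 s hx) ha
    · rw [e3] at hx
      exact hSO' _ (h4 s hx) ha'
    · rw [e1] at hx
      exact hSO _ (hbS _) (j2 t hx)
    · rw [e3] at hx
      exact j3 t hx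
    · rw [e3] at hx
      exact hOO' _ (j2 t hx) ha'
    · rw [e1] at hx
      exact hSO' _ (hbS _) (j2' t hx)
    · rw [e3] at hx
      exact hOO' _ ha (j2' t hx)
    · rw [e3] at hx
      exact j3' t hx
  · intro s s' hss
    rw [Set.disjoint_left]
    intro x hx hx'
    rcases (hI' s x).1 hx with hx | ⟨t, ht, hs, hx⟩ | ⟨t, ht, hs, hx⟩ <;>
    rcases (hI' s' x).1 hx' with hx' | ⟨t', ht', hs', hx'⟩ | ⟨t', ht', hs', hx'⟩
    · exact Set.disjoint_left.1 (h6 s s' hss) hx hx'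
    · exact hSO x (h4 s hx) (j2 t' hx')
    · exact hSO' x (h4 s hx) (j2' t' hx')
    · exact hSO x (h4 s' hx') (j2 t hx)
    · have htt : t ≠ t' := by
        rintro rfl
        exact hss (hs.trans hs'.symm)
      exact Set.disjoint_left.1 (j4 t t' htt) hx hx'
    · exact hOO' x (j2 t hx) (j2' t' hx')
    · exact hSO' x (h4 s' hx') (j2' t hx)
    · exact hOO' x (j2 t' hx') (j2' t hx)
    · have htt : t ≠ t' := by
        rintro rfl
        exact hss (hs.trans hs'.symm)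
      exact Set.disjoint_left.1 (j4' t t' htt) hx hx'

end Pool.Agent.Work.MP_5f857a_co.X
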