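import Pool.Agent.Work.MP_5f857a_co.X.Cone
import Pool.Agent.Work.MP_5f857a_co.X.MV
import Pool.Agent.Work.MP_5f857a_co.X.Fans
import Pool.Agent.Work.MP_5f857a_co.X.Step

/-!
MODULE Main: if the reduced homology mod 2 of the clique complex of `G[W]` in dimension `k - 1` is not zero, then
`G[W]` contains a subdivision of the graph of the `k`-dimensional cross-polytope.
-/

set_option autoImplicit false

namespace Pool.Agent.Work.MP_5f857a_co.X

open Pool.Agent.Work.MP_5f857a_co.L

variable {α : Type*}

theorem tx_zero (G : SimpleGraph α) (W : Set α) : TX G 0 W :=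
  ⟨fun p => p.1.elim0, fun p => p.1.elim0, fun p => p.1.elim0, fun _ => ∅, fun p => p.1.elim0,
    fun _ => Set.empty_subset _, fun _ p => p.1.elim0, fun _ _ _ => Set.disjoint_empty _⟩

private theorem not_con_pair {G : SimpleGraph α} {x y : α} (hxy : x ≠ y) (hadj : ¬ G.Adj x y)
    {S : Set α} (hS : S ⊆ {x, y}) : ¬ Con G S x y := by
  intro h
  have h1 : y = x := Con.mem_of_closed (P := fun t => t = x) h rfl (by
    intro a b _ hb hab ha
    rcases hS hb with hb | hb
    · exact hb
    · rw [Set.mem_singleton_iff] at hb
      exfalso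
      apply hadj
      have ha' : a = x := ha
      rw [← ha', ← hb]
      exact hab)
  exact hxy h1.symm

theorem tx_of_not_acyc [Fintype α] [DecidableEq α] (G : SimpleGraph α) (n : ℕ) :
    ∀ W : Finset α, W.card = n → ∀ k, ¬ Acyc G W k → TX G k ↑W := by
  induction n using Nat.strong_induction_on with
  | _ n ih =>
    intro W hWn k hk
    cases k with
    | zero => exact tx_zero G _
    | succ k =>
      by_cases hsub : ∃ W', W' ⊂ W ∧ ¬ Acyc G W' (k + 1)
      · obtain ⟨W', hW', hac⟩ := hsub
        exact (ih W'.card (hWn ▸ Finset.card_lt_card hW') W' rfl (k + 1) hac).mono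
          (Finset.coe_subset.2 hW'.1)
      · push Not at hsub
        -- `W` is not a clique
        obtain ⟨x, hx, y, hy, hxy, hadj⟩ : ∃ x ∈ W, ∃ y ∈ W, x ≠ y ∧ ¬ G.Adj x y := by
          by_contra hcon
          push Not at hcon
          rcases W.eq_empty_or_nonempty with h0 | hne
          · rw [h0] at hk
            exact hk (acyc_empty k)
          · exact hk (acyc_clique hne hcon (k + 1))
        -- a minimum separator
        have hex : ∃ m : ℕ, ∃ X : Finset α, X ⊆ W ∧ X.card = m ∧ ∃ u ∈ W, u ∉ X ∧ ∃ v ∈ W, v ∉ X ∧
            ¬ Con G (↑W \ ↑X) u v := by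
          refine ⟨_, W \ {x, y}, Finset.sdiff_subset, rfl, x, hx, by simp, y, hy, by simp, ?_⟩
          refine not_con_pair hxy hadj ?_
          rintro t ⟨ht, ht'⟩
          by_contra hcon
          apply ht'
          rw [Finset.coe_sdiff]
          refine ⟨ht, fun h => hcon ?_⟩
          simpa using h
        classical
        obtain ⟨S, hSW, hSm, u, hu, huS, v, hv, hvS, huv⟩ := Nat.find_spec hex
        have hmin : ∀ X : Finset α, X.card < S.card → ∀ u ∈ W, u ∉ X → ∀ v ∈ W, v ∉ X →
            Con G (↑W \ ↑X) u v := by
          intro X hX a ha haX b hb hbX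
          by_contra hcon
          have hlt : (X ∩ W).card < Nat.find hex := by
            rw [← hSm]
            exact lt_of_le_of_lt (Finset.card_le_card Finset.inter_subset_left) hX
          refine Nat.find_min hex hlt ⟨X ∩ W, Finset.inter_subset_right, rfl, a, ha,
            fun h => haX (Finset.mem_inter.1 h).1, b, hb, fun h => hbX (Finset.mem_inter.1 h).1, ?_⟩
          intro h
          apply hcon
          refine h.mono le_rfl ?_
          rintro t ⟨ht, ht'⟩
          refine ⟨ht, fun h => ht' ?_⟩
          rw [Finset.coe_inter]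
          exact ⟨h, ht⟩
        -- the two sides
        set A : Finset α := W.filter fun w => w ∉ S ∧ Con G (↑W \ ↑S) u w with hA
        set B : Finset α := W.filter fun w => w ∉ S ∧ ¬ Con G (↑W \ ↑S) u w with hB
        have mA : ∀ w, w ∈ A ↔ w ∈ W ∧ w ∉ S ∧ Con G (↑W \ ↑S) u w := by
          intro w
          rw [hA, Finset.mem_filter]
        have mB : ∀ w, w ∈ B ↔ w ∈ W ∧ w ∉ S ∧ ¬ Con G (↑W \ ↑S) u w := by
          intro w
          rw [hB, Finset.mem_filter]
        have hcon0 : Con G (↑W \ ↑S) u u := L.Con.refl ⟨hu, huS⟩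
        have huA : u ∈ A := (mA u).2 ⟨hu, huS, hcon0⟩
        have hvB : v ∈ B := (mB v).2 ⟨hv, hvS, huv⟩
        have hAB : ∀ a ∈ A, ∀ b ∈ B, ¬ G.Adj a b := by
          intro a ha b hb hadj'
          obtain ⟨ha1, ha2, ha3⟩ := (mA a).1 ha
          obtain ⟨hb1, hb2, hb3⟩ := (mB b).1 hb
          exact hb3 (ha3.trans (Con.adj hadj' ⟨ha1, ha2⟩ ⟨hb1, hb2⟩))
        have hdis : Disjoint A B := by
          rw [Finset.disjoint_left]
          intro t ht ht'
          exact ((mB t).1 ht').2.2 ((mA t).1 ht).2.2
        have hAS : Disjoint A S := by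
          rw [Finset.disjoint_left]
          intro t ht ht'
          exact ((mA t).1 ht).2.1 ht'
        have hBS : Disjoint B S := by
          rw [Finset.disjoint_left]
          intro t ht ht'
          exact ((mB t).1 ht).2.1 ht'
        have hAW : A ⊆ W := fun t ht => ((mA t).1 ht).1
        have hBW : B ⊆ W := fun t ht => ((mB t).1 ht).1
        have hW : A ∪ S ∪ B = W := by
          ext t
          rw [Finset.mem_union, Finset.mem_union, mA, mB]
          constructor
          · rintro ((h | h) | h)
            · exact h.1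
            · exact hSW h
            · exact h.1
          · intro h
            by_cases h1 : t ∈ S
            · exact Or.inl (Or.inr h1)
            · by_cases h2 : Con G (↑W \ ↑S) u t
              · exact Or.inl (Or.inl ⟨h, h1, h2⟩)
              · exact Or.inr ⟨h, h1, h2⟩
        have hac1 : Acyc G (A ∪ S) (k + 1) := by
          refine hsub _ ?_
          refine (Finset.ssubset_iff_of_subset (Finset.union_subset hAW hSW)).2 ⟨v, hv, ?_⟩
          rw [Finset.mem_union, not_or]
          exact ⟨fun h => Finset.disjoint_left.1 hdis h hvB, hvS⟩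
        have hac2 : Acyc G (S ∪ B) (k + 1) := by
          refine hsub _ ?_
          refine (Finset.ssubset_iff_of_subset (Finset.union_subset hSW hBW)).2 ⟨u, hu, ?_⟩
          rw [Finset.mem_union, not_or]
          exact ⟨huS, fun h => Finset.disjoint_left.1 hdis huA h⟩
        have hS : ¬ Acyc G S k := by
          intro hS
          apply hk
          rw [← hW]
          exact mv hdis hAB hac1 hac2 hS
        have hScard : S.card < n := by
          rw [← hWn]
          refine Finset.card_lt_card ?_
          exact (Finset.ssubset_iff_of_subset hSW).2 ⟨u, hu, huS⟩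
        have hTX := ih S.card hScard S rfl k hS
        have hclA : ∀ x ∈ A, ∀ y ∈ W, G.Adj x y → y ∈ A ∨ y ∈ S := by
          intro a ha b hb hadj'
          by_contra hcon
          rw [not_or] at hcon
          have hbB : b ∈ B := by
            rw [mB]
            refine ⟨hb, hcon.2, fun h => hcon.1 ((mA b).2 ⟨hb, hcon.2, h⟩)⟩
          exact hAB a ha b hbB hadj'
        have hclB : ∀ x ∈ B, ∀ y ∈ W, G.Adj x y → y ∈ B ∨ y ∈ S := by
          intro a ha b hb hadj'
          by_contra hcon
          rw [not_or] at hcon
          have hbA : b ∈ A := by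
            rw [mA]
            refine ⟨hb, hcon.2, ?_⟩
            by_contra h
            exact hcon.1 ((mB b).2 ⟨hb, hcon.2, h⟩)
          exact hAB b hbA a ha hadj'.symm
        have hfA := hasFan hSW hAW huA hAS hclA hmin
        have hfB := hasFan hSW hBW hvB hBS hclB hmin
        exact step hTX (Finset.mem_coe.2 huA) (Finset.mem_coe.2 hvB)
          (Finset.disjoint_coe.2 hAS.symm) (Finset.disjoint_coe.2 hBS.symm)
          (Finset.disjoint_coe.2 hdis) (Finset.coe_subset.2 hSW) (Finset.coe_subset.2 hAW)
          (Finset.coe_subset.2 hBW) hfA hfB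

end Pool.Agent.Work.MP_5f857a_co.X
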